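import Mathlib
import Pool.Agent.helper57.Fc.Base

set_option autoImplicit false

/-!
# Countable models from forcing

For each condition `p₀` there is a countable model of all sentences forced by `p₀` (where the
quantifiers of the forcing relation range over a given nonempty class `S` of names).
-/

open FirstOrder FirstOrder.Language

namespace Pool.Agent.helper57.Fc

instance (n : ℕ) : Subsingleton (MemSymbol n) := ⟨fun a b => by cases a; cases b; rfl⟩

instance : Countable LSet.Symbols := by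
  have h1 : Countable (Σ l, LSet.Functions l) := by
    change Countable (Σ _ : ℕ, Empty)
    infer_instance
  have h2 : Countable (Σ l, LSet.Relations l) := by
    change Countable (Σ l, MemSymbol l)
    infer_instance
  change Countable ((Σ l, LSet.Functions l) ⊕ (Σ l, LSet.Relations l))
  infer_instance

instance (n : ℕ) : Countable (Fm n) :=
  Function.Injective.countable (f := fun φ : Fm n => (⟨n, φ⟩ : Σ n, Fm n))
    (fun a b h => by simpa using h)

/-- The structure for the language of set theory given by a binary relation. -/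
@[reducible] def setStr {M : Type*} (E : M → M → Prop) : LSet.Structure M where
  funMap := fun f _ => Empty.elim f
  RelMap := fun R xs => match R with
    | .mem => E (xs 0) (xs 1)

/-- Satisfaction of a formula in the structure `(M, E)`. -/
def Sat {M : Type*} (E : M → M → Prop) {n : ℕ} (φ : Fm n) (a : Fin n → M) : Prop :=
  @BoundedFormula.Realize LSet M (setStr E) Empty n φ default a

section SatLemmas

variable {M : Type*} {E : M → M → Prop} {n : ℕ} {a : Fin n → M}

theorem realize_term (t : LSet.Term (Empty ⊕ Fin n)) :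
    @Term.realize LSet M (setStr E) _ (Sum.elim default a) t = tval a t := by
  cases t with
  | var b =>
    cases b with
    | inl b => exact Empty.elim b
    | inr b => rfl
  | func f _ => exact Empty.elim f

theorem sat_falsum : Sat E (⊥ : Fm n) a ↔ False := Iff.rfl

theorem sat_equal (t₁ t₂ : LSet.Term (Empty ⊕ Fin n)) :
    Sat E (BoundedFormula.equal t₁ t₂) a ↔ tval a t₁ = tval a t₂ := by
  rw [← realize_term (E := E), ← realize_term (E := E)]
  exact Iff.rfl

theorem sat_rel (ts : Fin 2 → LSet.Term (Empty ⊕ Fin n)) :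
    Sat E (BoundedFormula.rel (MemSymbol.mem : LSet.Relations 2) ts) a ↔
      E (tval a (ts 0)) (tval a (ts 1)) := by
  rw [← realize_term (E := E), ← realize_term (E := E)]
  exact Iff.rfl

theorem sat_imp {φ ψ : Fm n} : Sat E (φ ⟹ ψ) a ↔ (Sat E φ a → Sat E ψ a) := Iff.rfl

theorem sat_all {φ : Fm (n + 1)} : Sat E (∀' φ) a ↔ ∀ x, Sat E φ (sn a x) := Iff.rfl

theorem sat_mem {i j : Fin n} : Sat E (fMem i j) a ↔ E (a i) (a j) := Iff.rfl

theorem sat_eq {i j : Fin n} : Sat E (fEq i j) a ↔ a i = a j := Iff.rfl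

theorem sat_not {φ : Fm n} : Sat E (∼φ) a ↔ ¬ Sat E φ a := Iff.rfl

theorem sat_and {φ ψ : Fm n} : Sat E (φ ⊓ ψ) a ↔ Sat E φ a ∧ Sat E ψ a :=
  letI := setStr E
  BoundedFormula.realize_inf

theorem sat_or {φ ψ : Fm n} : Sat E (φ ⊔ ψ) a ↔ Sat E φ a ∨ Sat E ψ a :=
  letI := setStr E
  BoundedFormula.realize_sup

theorem sat_iff {φ ψ : Fm n} : Sat E (φ ⇔ ψ) a ↔ (Sat E φ a ↔ Sat E ψ a) :=
  letI := setStr E
  BoundedFormula.realize_iff

theorem sat_ex {φ : Fm (n + 1)} : Sat E (∃' φ) a ↔ ∃ x, Sat E φ (sn a x) :=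
  letI := setStr E
  BoundedFormula.realize_ex

end SatLemmas

theorem tval_comp {N N' : Type*} (f : N → N') {n : ℕ} (a : Fin n → N)
    (t : LSet.Term (Empty ⊕ Fin n)) : tval (fun i => f (a i)) t = f (tval a t) := by
  cases t with
  | var b =>
    cases b with
    | inl b => exact Empty.elim b
    | inr b => rfl
  | func g _ => exact Empty.elim g

theorem sn_comp {N N' : Type*} (f : N → N') {n : ℕ} (a : Fin n → N) (x : N) :
    (fun i => f (sn a x i)) = sn (fun i => f (a i)) (f x) := by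
  funext i
  refine Fin.lastCases ?_ (fun i => ?_) i
  · change f (sn a x nw) = sn (fun i => f (a i)) (f x) nw
    rw [sn_nw, sn_nw]
  · change f (sn a x (up i)) = sn (fun i => f (a i)) (f x) (up i)
    rw [sn_up, sn_up]

section Generic

variable {P : Type} [Preorder P] {S : Set (Name P)}

/-- One step of the construction. -/
theorem exists_step {x₀ : Name P} (hx₀ : x₀ ∈ S) {n : ℕ} (φ : Fm n) (xs : Fin n → Name P)
    (p : P) : ∃ q ≤ p, ∃ y ∈ S, (Forces S φ xs q ∨ Forces S (∼φ) xs q) ∧
      ∀ θ : Fm (n + 1), φ = ∀' θ → (Forces S φ xs q ∨ Forces S (∼θ) (sn xs y) q) := by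
  obtain ⟨q, hq, h | h⟩ := forces_em S φ xs p
  · exact ⟨q, hq, x₀, hx₀, Or.inl h, fun _ _ => Or.inl h⟩
  · by_cases hall : ∃ θ : Fm (n + 1), φ = ∀' θ
    · obtain ⟨θ, rfl⟩ := hall
      have h1 : ¬ Forces S (∀' θ) xs q := h q le_rfl
      rw [forces_all] at h1
      push Not at h1
      obtain ⟨y, hy, h2⟩ := h1
      rcases (Forces.reg S θ (sn xs y)).em q with h3 | ⟨r, hr, h3⟩
      · exact absurd h3 h2
      · refine ⟨r, hr.trans hq, y, hy, Or.inr (h.mono hr), fun θ' hθ' => Or.inr ?_⟩
        have : θ = θ' := by injection hθ'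
        subst this
        exact h3
    · exact ⟨q, hq, x₀, hx₀, Or.inr h, fun θ hθ => absurd ⟨θ, hθ⟩ hall⟩

/-- There is a decreasing sequence of conditions, and a sequence of names, which decide all
formulas and contain witnesses for all existential statements. -/
theorem exists_generic {x₀ : Name P} (hx₀ : x₀ ∈ S) (p₀ : P) :
    ∃ (p : ℕ → P) (X : ℕ → Name P), p 0 = p₀ ∧ (∀ k l, k ≤ l → p l ≤ p k) ∧ (∀ i, X i ∈ S) ∧
      (∀ (n : ℕ) (φ : Fm n) (a : Fin n → ℕ), ∃ k, Forces S φ (fun i => X (a i)) (p k) ∨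
        Forces S (∼φ) (fun i => X (a i)) (p k)) ∧
      ∀ (n : ℕ) (θ : Fm (n + 1)) (a : Fin n → ℕ), ∃ k, Forces S (∀' θ) (fun i => X (a i)) (p k) ∨
        ∃ j, Forces S (∼θ) (sn (fun i => X (a i)) (X j)) (p k) := by
  classical
  let T := Σ n, Fm n × (Fin n → ℕ)
  have : Nonempty T := ⟨⟨0, ⊥, Fin.elim0⟩⟩
  obtain ⟨f, hf⟩ := exists_surjective_nat T
  let e : ℕ → T := fun k => f (Nat.unpair k).1
  have he : ∀ (t : T) (N : ℕ), ∃ k ≥ N, e k = t := by
    intro t N
    obtain ⟨m, rfl⟩ := hf t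
    exact ⟨Nat.pair m N, Nat.right_le_pair m N, by simp [e]⟩
  choose q hq y hy hdec hwit using fun (n : ℕ) (φ : Fm n) (xs : Fin n → Name P) (p : P) =>
    exists_step hx₀ φ xs p
  let st : ℕ → P × (ℕ → Name P) := fun k => Nat.rec (p₀, fun _ => x₀) (fun k s =>
    (q (e k).1 (e k).2.1 (fun i => s.2 ((e k).2.2 i)) s.1,
      Function.update s.2 k (y (e k).1 (e k).2.1 (fun i => s.2 ((e k).2.2 i)) s.1))) k
  have hst : ∀ k, st (k + 1) =
      (q (e k).1 (e k).2.1 (fun i => (st k).2 ((e k).2.2 i)) (st k).1,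
      Function.update (st k).2 k (y (e k).1 (e k).2.1 (fun i => (st k).2 ((e k).2.2 i))
        (st k).1)) := fun k => rfl
  have hp : ∀ k l, k ≤ l → (st l).1 ≤ (st k).1 := by
    intro k l hkl
    induction l, hkl using Nat.le_induction with
    | base => exact le_rfl
    | succ l _ ih =>
      rw [hst]
      exact (hq _ _ _ _).trans ih
  have hx : ∀ i k, i < k → (st k).2 i = (st (i + 1)).2 i := by
    intro i k hik
    induction k, hik using Nat.le_induction with
    | base => rfl
    | succ k hk ih =>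
      rw [hst]
      change Function.update _ _ _ _ = _
      rw [Function.update_of_ne (by omega), ih]
  have hS : ∀ k i, (st k).2 i ∈ S := by
    intro k
    induction k with
    | zero => exact fun _ => hx₀
    | succ k ih =>
      intro i
      rw [hst]
      change (Function.update (st k).2 k _ : ℕ → Name P) i ∈ S
      by_cases hik : i = k
      · subst hik
        rw [Function.update_self]
        exact hy _ _ _ _
      · rw [Function.update_of_ne hik]
        exact ih i
  have hbig : ∀ (n : ℕ) (a : Fin n → ℕ), ∃ N, ∀ i, a i < N := by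
    intro n a
    obtain ⟨N, hN⟩ := (Set.finite_range a).bddAbove
    exact ⟨N + 1, fun i => Nat.lt_succ_of_le (hN ⟨i, rfl⟩)⟩
  refine ⟨fun k => (st k).1, fun i => (st (i + 1)).2 i, rfl, hp, fun i => hS (i + 1) i, ?_, ?_⟩
  · intro n φ a
    obtain ⟨N, hN⟩ := hbig n a
    obtain ⟨k, hk, hek⟩ := he ⟨n, φ, a⟩ N
    refine ⟨k + 1, ?_⟩
    have h1 : (fun i => (st (a i + 1)).2 (a i)) = fun i => (st k).2 (a i) := by
      funext i
      exact (hx (a i) k ((hN i).trans_le hk)).symm
    have h2 : (st (k + 1)).1 = q n φ (fun i => (st k).2 (a i)) (st k).1 := by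
      rw [hst, hek]
    change Forces S φ _ (st (k + 1)).1 ∨ Forces S (∼φ) _ (st (k + 1)).1
    rw [h1, h2]
    exact hdec _ _ _ _
  · intro n θ a
    obtain ⟨N, hN⟩ := hbig n a
    obtain ⟨k, hk, hek⟩ := he ⟨n, ∀' θ, a⟩ N
    refine ⟨k + 1, ?_⟩
    have h1 : (fun i => (st (a i + 1)).2 (a i)) = fun i => (st k).2 (a i) := by
      funext i
      exact (hx (a i) k ((hN i).trans_le hk)).symm
    have h2 : (st (k + 1)).1 = q n (∀' θ) (fun i => (st k).2 (a i)) (st k).1 := by
      rw [hst, hek]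
    have h3 : (st (k + 1)).2 k = y n (∀' θ) (fun i => (st k).2 (a i)) (st k).1 := by
      rw [hst, hek]
      change Function.update _ _ _ _ = _
      rw [Function.update_self]
    change Forces S (∀' θ) _ (st (k + 1)).1 ∨
      ∃ j, Forces S (∼θ) (sn _ ((st (j + 1)).2 j)) (st (k + 1)).1
    rw [h1, h2]
    rcases hwit n (∀' θ) (fun i => (st k).2 (a i)) (st k).1 θ rfl with h | h
    · exact Or.inl h
    · refine Or.inr ⟨k, ?_⟩
      rw [h3]
      exact h

/-- A countable structure, whose elements have names in `S`, in which a formula holds iff it is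
forced by some condition of a fixed decreasing sequence of conditions starting with `p₀`. -/
theorem exists_model {x₀ : Name P} (hx₀ : x₀ ∈ S) (p₀ : P) :
    ∃ (M : Type) (E : M → M → Prop) (p : ℕ → P) (X : ℕ → Name P) (c : ℕ → M),
      Function.Surjective c ∧ p 0 = p₀ ∧ (∀ k l, k ≤ l → p l ≤ p k) ∧ (∀ i, X i ∈ S) ∧
      ∀ (n : ℕ) (φ : Fm n) (a : Fin n → ℕ),
        Sat E φ (fun i => c (a i)) ↔ ∃ k, Forces S φ (fun i => X (a i)) (p k) := by
  obtain ⟨p, X, hp0, hp, hX, hdec, hwit⟩ := exists_generic hx₀ p₀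
  let s : Setoid ℕ :=
    { r := fun i j => ∃ k, ForcesEq (X i) (X j) (p k)
      iseqv :=
        { refl := fun i => ⟨0, ForcesEq.refl _ _⟩
          symm := fun ⟨k, h⟩ => ⟨k, h.symm⟩
          trans := fun ⟨k, h⟩ ⟨l, h'⟩ => ⟨max k l, (h.mono (hp _ _ (le_max_left _ _))).trans
            (h'.mono (hp _ _ (le_max_right _ _)))⟩ } }
  let E : Quotient s → Quotient s → Prop := Quotient.lift₂
    (fun i j => ∃ k, ForcesMem (X i) (X j) (p k)) (by
      intro i j i' j' hi hj
      have key : ∀ i j i' j', (∃ k, ForcesEq (X i) (X i') (p k)) →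
          (∃ k, ForcesEq (X j) (X j') (p k)) → (∃ k, ForcesMem (X i) (X j) (p k)) →
          ∃ k, ForcesMem (X i') (X j') (p k) := by
        rintro i j i' j' ⟨k1, h1⟩ ⟨k2, h2⟩ ⟨k3, h3⟩
        refine ⟨max k1 (max k2 k3), ?_⟩
        have e1 := h1.mono (hp _ _ (le_max_left k1 (max k2 k3)))
        have e2 := h2.mono (hp _ _ ((le_max_left k2 k3).trans (le_max_right k1 _)))
        have e3 := h3.mono (hp _ _ ((le_max_right k2 k3).trans (le_max_right k1 _)))
        exact (e3.congr_left e1).congr_right e2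
      exact propext ⟨key i j i' j' hi hj, key i' j' i j (s.symm hi) (s.symm hj)⟩)
  refine ⟨Quotient s, E, p, X, Quotient.mk s, Quotient.mk_surjective, hp0, hp, hX, ?_⟩
  intro n φ
  induction φ with
  | falsum =>
    intro a
    exact ⟨fun h => h.elim, fun ⟨_, h⟩ => h.elim⟩
  | equal t₁ t₂ =>
    intro a
    rw [sat_equal, tval_comp (Quotient.mk s) a t₁, tval_comp (Quotient.mk s) a t₂, Quotient.eq]
    change (∃ k, ForcesEq (X (tval a t₁)) (X (tval a t₂)) (p k)) ↔
      ∃ k, ForcesEq (tval (fun i => X (a i)) t₁) (tval (fun i => X (a i)) t₂) (p k)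
    rw [tval_comp X a t₁, tval_comp X a t₂]
  | rel R ts =>
    intro a
    cases R with
    | mem =>
      rw [sat_rel, tval_comp (Quotient.mk s) a (ts 0), tval_comp (Quotient.mk s) a (ts 1)]
      change (∃ k, ForcesMem (X (tval a (ts 0))) (X (tval a (ts 1))) (p k)) ↔
        ∃ k, ForcesMem (tval (fun i => X (a i)) (ts 0)) (tval (fun i => X (a i)) (ts 1)) (p k)
      rw [tval_comp X a (ts 0), tval_comp X a (ts 1)]
  | imp φ ψ ih1 ih2 =>
    intro a
    have h0 : Sat E (φ.imp ψ) (fun i => Quotient.mk s (a i)) ↔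
        (Sat E φ (fun i => Quotient.mk s (a i)) → Sat E ψ (fun i => Quotient.mk s (a i))) :=
      Iff.rfl
    rw [h0, ih1, ih2]
    constructor
    · intro h
      obtain ⟨k, h1 | h1⟩ := hdec _ φ a
      · obtain ⟨l, h2⟩ := h ⟨k, h1⟩
        exact ⟨l, fun q hq _ => h2.mono hq⟩
      · exact ⟨k, fun q hq h2 => absurd h2 (h1 q hq)⟩
    · rintro ⟨k, h⟩ ⟨l, h1⟩
      exact ⟨max k l, h _ (hp _ _ (le_max_left _ _)) (h1.mono (hp _ _ (le_max_right _ _)))⟩
  | all φ ih =>
    intro a
    have h0 : Sat E φ.all (fun i => Quotient.mk s (a i)) ↔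
        ∀ x, Sat E φ (sn (fun i => Quotient.mk s (a i)) x) := Iff.rfl
    have h1 : ∀ j, Sat E φ (sn (fun i => Quotient.mk s (a i)) (Quotient.mk s j)) ↔
        ∃ k, Forces S φ (sn (fun i => X (a i)) (X j)) (p k) := by
      intro j
      rw [← sn_comp (Quotient.mk s) a j, ← sn_comp X a j]
      exact ih (sn a j)
    rw [h0]
    constructor
    · intro h
      obtain ⟨k, h2 | ⟨j, h2⟩⟩ := hwit _ φ a
      · exact ⟨k, h2⟩
      · obtain ⟨l, h3⟩ := (h1 j).1 (h _)
        exact absurd (h3.mono (hp _ _ (le_max_right k l))) (h2 _ (hp _ _ (le_max_left k l)))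
    · rintro ⟨k, h⟩ x
      obtain ⟨j, rfl⟩ := Quotient.mk_surjective x
      exact (h1 j).2 ⟨k, h (X j) (hX j)⟩

end Generic

end Pool.Agent.helper57.Fc
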