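import Mathlib
import Pool.Agent.helper57.Fc.Model

set_option autoImplicit false

/-!
# Models of ZF and ZFC

The axioms of Zermelo-Fraenkel set theory for a structure `(M, E)`. The axiom schemas of
separation and replacement are stated for all first-order formulas with parameters.
-/

open FirstOrder FirstOrder.Language

namespace Pool.Agent.helper57.Fc

/-- `(M, E)` is a model of ZF. -/
structure IsZF {M : Type} (E : M → M → Prop) : Prop where
  /-- extensionality -/
  ext : ∀ x y, (∀ z, E z x ↔ E z y) → x = y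
  /-- foundation -/
  found : ∀ x, (∃ y, E y x) → ∃ y, E y x ∧ ∀ z, ¬ (E z x ∧ E z y)
  /-- pairing -/
  pair : ∀ x y, ∃ z, ∀ t, E t z ↔ t = x ∨ t = y
  /-- union -/
  union : ∀ x, ∃ y, ∀ z, E z y ↔ ∃ u, E u x ∧ E z u
  /-- power set -/
  power : ∀ x, ∃ y, ∀ z, E z y ↔ ∀ t, E t z → E t x
  /-- infinity -/
  infinity : ∃ w, (∃ e, E e w ∧ ∀ t, ¬ E t e) ∧
    ∀ x, E x w → ∃ y, E y w ∧ ∀ t, E t y ↔ (E t x ∨ t = x)
  /-- the separation schema -/
  sep : ∀ (n : ℕ) (φ : Fm (n + 1)) (a : Fin n → M) (x : M),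
    ∃ y, ∀ z, E z y ↔ E z x ∧ Sat E φ (sn a z)
  /-- the replacement schema -/
  repl : ∀ (n : ℕ) (φ : Fm (n + 2)) (a : Fin n → M) (x : M),
    (∀ u, E u x → ∃! v, Sat E φ (sn (sn a u) v)) →
      ∃ y, ∀ v, E v y ↔ ∃ u, E u x ∧ Sat E φ (sn (sn a u) v)

/-- `(M, E)` is a model of ZFC. -/
structure IsZFC {M : Type} (E : M → M → Prop) : Prop extends IsZF E where
  /-- choice: a set of nonempty pairwise disjoint sets has a choice set -/
  choice : ∀ x, (∀ u, E u x → ∃ t, E t u) →
    (∀ u v, E u x → E v x → u ≠ v → ¬ ∃ t, E t u ∧ E t v) →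
      ∃ c, ∀ u, E u x → ∃! t, E t u ∧ E t c

/-! ## Renaming of variables -/

/-- Lift a renaming under a quantifier. -/
def lft {m k : ℕ} (f : Fin m → Fin k) : Fin (m + 1) → Fin (k + 1) := sn (fun i => up (f i)) nw

/-- Rename the variables in a term. -/
def renT {m k : ℕ} (f : Fin m → Fin k) : LSet.Term (Empty ⊕ Fin m) → LSet.Term (Empty ⊕ Fin k)
  | .var (Sum.inl a) => .var (Sum.inl a)
  | .var (Sum.inr i) => .var (Sum.inr (f i))
  | .func g _ => Empty.elim g

/-- Rename the variables in a formula. -/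
def ren : ∀ {m k : ℕ}, (Fin m → Fin k) → Fm m → Fm k
  | _, _, _, .falsum => .falsum
  | _, _, f, .equal t₁ t₂ => .equal (renT f t₁) (renT f t₂)
  | _, _, f, .rel R ts => .rel R (fun i => renT f (ts i))
  | _, _, f, .imp φ ψ => .imp (ren f φ) (ren f ψ)
  | _, _, f, .all φ => .all (ren (lft f) φ)

theorem tval_renT {N : Type*} {m k : ℕ} (f : Fin m → Fin k) (xs : Fin k → N)
    (t : LSet.Term (Empty ⊕ Fin m)) : tval xs (renT f t) = tval (fun i => xs (f i)) t := by
  cases t with
  | var b =>
    cases b with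
    | inl b => exact Empty.elim b
    | inr b => rfl
  | func g _ => exact Empty.elim g

theorem sn_lft {N : Type*} {m k : ℕ} (f : Fin m → Fin k) (xs : Fin k → N) (x : N) :
    (fun i => sn xs x (lft f i)) = sn (fun i => xs (f i)) x := by
  unfold lft
  rw [sn_comp (sn xs x) (fun i => up (f i)) nw]
  simp only [sn_up, sn_nw]

theorem sat_ren {M : Type*} {E : M → M → Prop} {m : ℕ} (φ : Fm m) : ∀ {k : ℕ}
    (f : Fin m → Fin k) (a : Fin k → M), Sat E (ren f φ) a ↔ Sat E φ (fun i => a (f i)) := by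
  induction φ with
  | falsum => exact fun _ _ => Iff.rfl
  | equal t₁ t₂ =>
    intro k f a
    rw [sat_equal, ← tval_renT f a t₁, ← tval_renT f a t₂]
    exact sat_equal _ _
  | rel R ts =>
    intro k f a
    cases R with
    | mem =>
      rw [sat_rel, ← tval_renT f a (ts 0), ← tval_renT f a (ts 1)]
      exact sat_rel _
  | imp φ ψ ih1 ih2 =>
    intro k f a
    exact imp_congr (ih1 f a) (ih2 f a)
  | all φ ih =>
    intro k f a
    refine forall_congr' fun x => ?_
    have := ih (lft f) (sn a x)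
    rw [sn_lft] at this
    exact this

theorem forces_ren {P : Type} [Preorder P] {S : Set (Name P)} {m : ℕ} (φ : Fm m) : ∀ {k : ℕ}
    (f : Fin m → Fin k) (xs : Fin k → Name P) (p : P),
    Forces S (ren f φ) xs p ↔ Forces S φ (fun i => xs (f i)) p := by
  induction φ with
  | falsum => exact fun _ _ _ => Iff.rfl
  | equal t₁ t₂ =>
    intro k f xs p
    change ForcesEq (tval xs (renT f t₁)) (tval xs (renT f t₂)) p ↔ _
    rw [tval_renT, tval_renT]
    exact Iff.rfl
  | rel R ts =>
    intro k f xs p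
    cases R with
    | mem =>
      change ForcesMem (tval xs (renT f (ts 0))) (tval xs (renT f (ts 1))) p ↔ _
      rw [tval_renT, tval_renT]
      exact Iff.rfl
  | imp φ ψ ih1 ih2 =>
    intro k f xs p
    exact forall_congr' fun q => imp_congr Iff.rfl (imp_congr (ih1 f xs q) (ih2 f xs q))
  | all φ ih =>
    intro k f xs p
    refine forall_congr' fun x => imp_congr Iff.rfl ?_
    have := ih (lft f) (sn xs x) p
    rw [sn_lft] at this
    exact this

end Pool.Agent.helper57.Fc
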