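import Mathlib
import Pool.Agent.helper57.Fc.ZFDefs

set_option autoImplicit false

/-!
# Basic names
-/

open FirstOrder FirstOrder.Language

namespace Pool.Agent.helper57.Fc

section Check

variable {P : Type} [Preorder P] [OrderTop P] {S : Set (Name P)} {n : ℕ} {xs : Fin n → Name P}
  {p : P}

/-- The name for the set of all values of `x` (with the weakest condition). -/
def ck {ι : Type} (x : ι → Name P) : Name P := Name.mk ι x (fun _ => ⊤)

theorem mem_ck {ι : Type} {x : ι → Name P} {z : Name P} :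
    ForcesMem z (ck x) p ↔ ∀ q ≤ p, ∃ r ≤ q, ∃ i, ForcesEq z (x i) r := by
  constructor
  · intro h q hq
    obtain ⟨r, hr, i, -, h'⟩ := h q hq
    exact ⟨r, hr, i, h'⟩
  · intro h q hq
    obtain ⟨r, hr, i, h'⟩ := h q hq
    exact ⟨r, hr, i, le_top, h'⟩

theorem mem_ck_self {ι : Type} (x : ι → Name P) (i : ι) (p : P) : ForcesMem (x i) (ck x) p :=
  mem_ck.2 fun q _ => ⟨q, le_rfl, i, ForcesEq.refl _ _⟩

/-- The canonical names for the natural numbers. -/
def nat (P : Type) [Preorder P] [OrderTop P] (n : ℕ) : Name P :=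
  ck (fun i : Fin n => nat P i.1)
termination_by n
decreasing_by exact i.2

theorem nat_def (n : ℕ) : nat P n = ck (fun i : Fin n => nat P i.1) := by
  rw [nat]

theorem mem_nat {z : Name P} {n : ℕ} :
    ForcesMem z (nat P n) p ↔ ∀ q ≤ p, ∃ r ≤ q, ∃ i < n, ForcesEq z (nat P i) r := by
  rw [nat_def, mem_ck]
  refine forall_congr' fun q => forall_congr' fun _ => exists_congr fun r =>
    and_congr_right fun _ => ?_
  constructor
  · rintro ⟨i, hi⟩
    exact ⟨i.1, i.2, hi⟩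
  · rintro ⟨i, h1, h2⟩
    exact ⟨⟨i, h1⟩, h2⟩

/-- The canonical name for `ω`. -/
def om (P : Type) [Preorder P] [OrderTop P] : Name P := ck (nat P)

/-- The subset of `x` with truth values given by `u`. -/
def sepN (x : Name P) (u : x.Idx → P → Prop) : Name P :=
  .mk {t : x.Idx × P // t.2 ≤ x.cd t.1 ∧ u t.1 t.2} (fun t => x.el t.1.1) (fun t => t.1.2)

omit [OrderTop P] in
theorem mem_sepN {x z : Name P} {u : x.Idx → P → Prop} (hu : ∀ i, Reg (u i)) :
    ForcesMem z (sepN x u) p ↔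
      ∀ q ≤ p, ∃ r ≤ q, ∃ i, r ≤ x.cd i ∧ u i r ∧ ForcesEq z (x.el i) r := by
  constructor
  · intro h q hq
    obtain ⟨r, hr, ⟨⟨i, s⟩, h1, h2⟩, h3, h4⟩ := h q hq
    exact ⟨r, hr, i, h3.trans h1, (hu i).mono h3 h2, h4⟩
  · intro h q hq
    obtain ⟨r, hr, i, h1, h2, h3⟩ := h q hq
    exact ⟨r, hr, ⟨⟨i, r⟩, h1, h2⟩, le_rfl, h3⟩

omit [OrderTop P] in
theorem mem_sepN' {x z : Name P} {C : Name P → P → Prop} (hC : ∀ w, Reg (C w))
    (hcongr : ∀ w w' q, ForcesEq w w' q → C w q → C w' q) :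
    ForcesMem z (sepN x (fun i => C (x.el i))) p ↔ ForcesMem z x p ∧ C z p := by
  rw [mem_sepN fun i => hC _]
  constructor
  · intro h
    refine ⟨(ForcesMem.reg _ _).dense fun q hq => ?_, (hC z).dense fun q hq => ?_⟩
    · obtain ⟨r, hr, i, h1, -, h3⟩ := h q hq
      exact ⟨r, hr, (forcesMem_el x i h1).congr_left h3.symm⟩
    · obtain ⟨r, hr, i, -, h2, h3⟩ := h q hq
      exact ⟨r, hr, hcongr _ _ _ h3.symm h2⟩
  · rintro ⟨h1, h2⟩ q hq
    obtain ⟨r, hr, i, h3, h4⟩ := forcesMem_iff.1 h1 q hq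
    exact ⟨r, hr, i, h3, hcongr _ _ _ h4 ((hC z).mono (hr.trans hq) h2), h4⟩

omit [OrderTop P] in
/-- Separation by a formula. -/
theorem mem_sepN_forces {x z : Name P} {φ : Fm (n + 1)} :
    ForcesMem z (sepN x (fun i => Forces S φ (sn xs (x.el i)))) p ↔
      ForcesMem z x p ∧ Forces S φ (sn xs z) p :=
  mem_sepN' (C := fun w => Forces S φ (sn xs w)) (fun _ => Forces.reg _ _ _)
    (fun _ _ _ h h' => (forces_sn_congr h).1 h')

/-- The closure properties of a class `S` of names which ensure that the axioms of ZF are forced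
when the quantifiers range over `S`. -/
structure NameUniv (S : Set (Name P)) : Prop where
  trans : ∀ x ∈ S, ∀ i, x.el i ∈ S
  sep : ∀ {n : ℕ} (φ : Fm (n + 1)) (xs : Fin n → Name P), (∀ i, xs i ∈ S) → ∀ x ∈ S,
    sepN x (fun i => Forces S φ (sn xs (x.el i))) ∈ S
  bd : ∀ {ι : Type} (f : ι → Name P), (∀ i, f i ∈ S) → ∃ y ∈ S, ∀ i p, ForcesMem (f i) y p
  om : om P ∈ S

theorem nameUniv_univ : NameUniv (Set.univ : Set (Name P)) :=
  ⟨fun _ _ _ => Set.mem_univ _, fun _ _ _ _ _ => Set.mem_univ _,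
    fun f _ => ⟨ck f, Set.mem_univ _, fun i p => mem_ck_self f i p⟩, Set.mem_univ _⟩

end Check

end Pool.Agent.helper57.Fc
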