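import Mathlib
import Pool.Agent.helper57.Fc.Names

set_option autoImplicit false

/-!
# The axioms of ZF are forced
-/

open FirstOrder FirstOrder.Language

namespace Pool.Agent.helper57.Fc

variable {P : Type} [Preorder P] [OrderTop P] {S : Set (Name P)}

/-! ### Extensionality -/

def axExt : Fm 2 := (∀' (fMem nw (up 0) ⇔ fMem nw (up 1))) ⟹ fEq 0 1

theorem forces_axExt (hS : NameUniv S) (xs : Fin 2 → Name P) (hxs : ∀ i, xs i ∈ S) (p : P) :
    Forces S axExt xs p := by
  intro q _ h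
  have h' : ∀ z ∈ S, ∀ r ≤ q, (ForcesMem z (xs 0) r ↔ ForcesMem z (xs 1) r) := by
    intro z hz r hr
    have := forces_iff.1 (forces_all.1 h z hz) r hr
    rw [forces_mem, forces_mem, sn_nw, sn_up, sn_up] at this
    exact this
  exact ForcesEq.ext' (fun i r hr h1 => (h' _ (hS.trans _ (hxs 0) i) r hr).1 h1)
    (fun i r hr h1 => (h' _ (hS.trans _ (hxs 1) i) r hr).2 h1)

/-! ### Foundation -/

def axFound : Fm 1 := (∃' (fMem nw (up 0))) ⟹
  ∃' (fMem nw (up 0) ⊓ ∀' (∼(fMem nw (up (up 0)) ⊓ fMem nw (up nw))))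

theorem forces_axFound (hS : NameUniv S) (xs : Fin 1 → Name P) (p : P) :
    Forces S axFound xs p := by
  intro q _ h
  rw [forces_ex] at h ⊢
  intro q' hq'
  by_contra hcon
  push Not at hcon
  have key : ∀ y ∈ S, ∀ r ≤ q', ¬ ForcesMem y (xs 0) r := by
    intro y
    induction y with
    | mk ι y b ih =>
      intro hy r hr h1
      refine hcon r hr _ hy (forces_and.2 ⟨?_, ?_⟩)
      · rw [forces_mem, sn_nw, sn_up]
        exact h1
      · rw [forces_all]
        intro z _
        rw [forces_not]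
        intro s hs h2
        rw [forces_and, forces_mem, forces_mem] at h2
        simp only [sn_nw, sn_up] at h2
        obtain ⟨t, ht, i, hi, h3⟩ := forcesMem_iff.1 h2.2 s le_rfl
        exact ih i (hS.trans _ hy i) t ((ht.trans hs).trans hr)
          ((h2.1.mono ht).congr_left h3)
  obtain ⟨r, hr, y, hy, h1⟩ := h q' hq'
  rw [forces_mem, sn_nw, sn_up] at h1
  exact key y hy r hr h1

/-! ### Pairing (weak form) -/

def axPair : Fm 2 := ∃' (fMem (up 0) nw ⊓ fMem (up 1) nw)

theorem forces_axPair (hS : NameUniv S) (xs : Fin 2 → Name P) (hxs : ∀ i, xs i ∈ S) (p : P) :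
    Forces S axPair xs p := by
  obtain ⟨y, hy, h⟩ := hS.bd (fun i : Fin 2 => xs i) hxs
  refine forces_ex_of hy (forces_and.2 ⟨?_, ?_⟩)
  · rw [forces_mem, sn_nw, sn_up]
    exact h 0 p
  · rw [forces_mem, sn_nw, sn_up]
    exact h 1 p

/-! ### Union (weak form) -/

def axUnion : Fm 1 := ∃' ∀' (fMem nw (up (up 0)) ⟹ ∀' (fMem nw (up nw) ⟹ fMem nw (up (up nw))))

theorem forces_axUnion (hS : NameUniv S) (xs : Fin 1 → Name P) (hxs : ∀ i, xs i ∈ S) (p : P) :
    Forces S axUnion xs p := by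
  obtain ⟨y, hy, h⟩ := hS.bd (fun t : Σ i : (xs 0).Idx, ((xs 0).el i).Idx => ((xs 0).el t.1).el t.2)
    (fun t => hS.trans _ (hS.trans _ (hxs 0) _) _)
  refine forces_ex_of hy ?_
  rw [forces_all]
  intro u _
  rw [forces_imp]
  intro q _ hu
  rw [forces_all]
  intro z _
  rw [forces_imp]
  intro r hr hz
  rw [forces_mem] at hu hz ⊢
  simp only [sn_nw, sn_up] at hu hz ⊢
  refine (ForcesMem.reg _ _).dense fun s hs => ?_
  obtain ⟨t, ht, i, -, h1⟩ := forcesMem_iff.1 hu s (hs.trans hr)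
  have h2 : ForcesMem z ((xs 0).el i) t := (hz.mono (ht.trans hs)).congr_right h1
  obtain ⟨t', ht', j, -, h3⟩ := forcesMem_iff.1 h2 t le_rfl
  exact ⟨t', ht'.trans ht, (h ⟨i, j⟩ t').congr_left h3.symm⟩

/-! ### Power set (weak form) -/

def axPower : Fm 1 := ∃' ∀' ((∀' (fMem nw (up nw) ⟹ fMem nw (up (up (up 0))))) ⟹ fMem nw (up nw))

theorem forces_axPower (hS : NameUniv S) (xs : Fin 1 → Name P) (hxs : ∀ i, xs i ∈ S) (p : P) :
    Forces S axPower xs p := by
  obtain ⟨y, hy, h⟩ := hS.bd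
    (fun u : {u : (xs 0).Idx → P → Prop // sepN (xs 0) u ∈ S} => sepN (xs 0) u.1) (fun u => u.2)
  refine forces_ex_of hy ?_
  rw [forces_all]
  intro z hz
  rw [forces_imp]
  intro q _ h1
  rw [forces_mem]
  simp only [sn_nw, sn_up]
  have hsub : ∀ w ∈ S, ∀ r ≤ q, ForcesMem w z r → ForcesMem w (xs 0) r := by
    intro w hw r hr h2
    have h3 := forces_imp.1 (forces_all.1 h1 w hw) r hr
    rw [forces_mem, forces_mem] at h3
    simp only [sn_nw, sn_up] at h3
    exact h3 h2
  have hmem : sepN (xs 0) (fun i => Forces S (fMem nw (up 0) : Fm 2)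
      (sn (fun _ : Fin 1 => z) ((xs 0).el i))) ∈ S :=
    hS.sep (fMem nw (up 0) : Fm 2) (fun _ : Fin 1 => z) (fun _ => hz) _ (hxs 0)
  have heq : ForcesEq z (sepN (xs 0) (fun i => Forces S (fMem nw (up 0) : Fm 2)
      (sn (fun _ : Fin 1 => z) ((xs 0).el i)))) q := by
    refine ForcesEq.ext' (fun i r hr h2 => ?_) (fun i r hr h2 => ?_)
    · rw [mem_sepN_forces, forces_mem, sn_nw, sn_up]
      exact ⟨hsub _ (hS.trans _ hz i) r hr h2, h2⟩
    · rw [mem_sepN_forces, forces_mem, sn_nw, sn_up] at h2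
      exact h2.2
  exact (h ⟨_, hmem⟩ q).congr_left heq.symm

/-! ### Infinity -/

def axInf : Fm 0 := ∃' ((∃' (fMem nw (up nw) ⊓ ∀' ∼(fMem nw (up nw)))) ⊓
  ∀' (fMem nw (up nw) ⟹ ∃' (fMem nw (up (up nw)) ⊓
    ∀' (fMem nw (up nw) ⇔ (fMem nw (up (up nw)) ⊔ fEq nw (up (up nw)))))))

theorem forces_axInf (hS : NameUniv S) (xs : Fin 0 → Name P) (p : P) :
    Forces S axInf xs p := by
  have hnat : ∀ n, nat P n ∈ S := fun n => hS.trans _ hS.om n
  refine forces_ex_of hS.om (forces_and.2 ⟨forces_ex_of (hnat 0) (forces_and.2 ⟨?_, ?_⟩), ?_⟩)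
  · rw [forces_mem]
    simp only [sn_nw, sn_up]
    exact mem_ck_self _ _ _
  · rw [forces_all]
    intro z _
    rw [forces_not]
    intro q _ h
    rw [forces_mem] at h
    simp only [sn_nw, sn_up] at h
    obtain ⟨r, _, i, hi, _⟩ := mem_nat.1 h q le_rfl
    exact absurd hi (Nat.not_lt_zero i)
  · rw [forces_all]
    intro x hx
    rw [forces_imp]
    intro q _ h
    rw [forces_mem] at h
    simp only [sn_nw, sn_up] at h
    refine (Forces.reg _ _ _).dense fun r hr => ?_
    obtain ⟨s, hs, i, hi⟩ := mem_ck.1 h r hr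
    refine ⟨s, hs, forces_ex_of (hnat (i + 1)) (forces_and.2 ⟨?_, ?_⟩)⟩
    · rw [forces_mem]
      simp only [sn_nw, sn_up]
      exact mem_ck_self _ _ _
    · rw [forces_all]
      intro t _
      rw [forces_iff]
      intro q' hq'
      rw [forces_or]
      simp only [forces_mem, forces_eq, sn_nw, sn_up]
      constructor
      · intro h1 r' hr'
        obtain ⟨s', hs', j, hj, h2⟩ := mem_nat.1 h1 r' hr'
        have h3 : ForcesEq x (nat P i) s' := hi.mono ((hs'.trans hr').trans hq')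
        refine ⟨s', hs', ?_⟩
        rcases Nat.lt_succ_iff_lt_or_eq.1 hj with h4 | h4
        · left
          have h5 : ForcesMem (nat P j) (nat P i) s' :=
            mem_nat.2 fun q _ => ⟨q, le_rfl, j, h4, ForcesEq.refl _ _⟩
          exact (h5.congr_left h2.symm).congr_right h3.symm
        · right
          subst h4
          exact h2.trans h3.symm
      · intro h1
        refine (ForcesMem.reg _ _).dense fun r' hr' => ?_
        obtain ⟨s', hs', h2⟩ := h1 r' hr'
        have h3 : ForcesEq x (nat P i) s' := hi.mono ((hs'.trans hr').trans hq')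
        refine ⟨s', hs', ?_⟩
        rcases h2 with h2 | h2
        · have h4 := h2.congr_right h3
          refine mem_nat.2 fun q'' hq'' => ?_
          obtain ⟨r'', hr'', j, hj, h5⟩ := mem_nat.1 h4 q'' hq''
          exact ⟨r'', hr'', j, hj.trans (Nat.lt_succ_self i), h5⟩
        · exact mem_nat.2 fun q'' hq'' => ⟨q'', le_rfl, i, Nat.lt_succ_self i,
            (h2.trans h3).mono hq''⟩

/-! ### Separation -/

/-- The instance of separation for `φ`; the variables are the parameters and `x`. -/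
def axSep {n : ℕ} (φ : Fm (n + 1)) : Fm (n + 1) :=
  ∃' ∀' (fMem nw (up nw) ⇔ (fMem nw (up (up nw)) ⊓
    ren (sn (fun i => up (up (up i))) nw) φ))

theorem forces_axSep (hS : NameUniv S) {n : ℕ} (φ : Fm (n + 1)) (xs : Fin (n + 1) → Name P)
    (hxs : ∀ i, xs i ∈ S) (p : P) : Forces S (axSep φ) xs p := by
  have hmem := hS.sep φ (fun i => xs (up i)) (fun i => hxs _) _ (hxs nw)
  refine forces_ex_of hmem ?_
  rw [forces_all]
  intro z _
  rw [forces_iff]
  intro q _
  rw [forces_and, forces_ren, forces_mem, forces_mem, sn_comp (sn _ z)]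
  simp only [sn_nw, sn_up]
  rw [mem_sepN_forces]

/-! ### Collection -/

/-- The instance of collection for `φ`; the variables are the parameters and `x`. -/
def axColl {n : ℕ} (φ : Fm (n + 2)) : Fm (n + 1) :=
  ∃' ∀' (fMem nw (up (up nw)) ⟹
    (∃' ren (sn (sn (fun i => up (up (up (up i)))) (up nw)) nw) φ) ⟹
      ∃' (fMem nw (up (up nw)) ⊓ ren (sn (sn (fun i => up (up (up (up i)))) (up nw)) nw) φ))

theorem forces_axColl (hS : NameUniv S) {n : ℕ} (φ : Fm (n + 2)) (xs : Fin (n + 1) → Name P)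
    (p : P) : Forces S (axColl φ) xs p := by
  classical
  have hch : ∀ t : (xs nw).Idx × P, ∃ v ∈ S,
      (∃ w ∈ S, Forces S φ (sn (sn (fun i => xs (up i)) ((xs nw).el t.1)) w) t.2) →
      Forces S φ (sn (sn (fun i => xs (up i)) ((xs nw).el t.1)) v) t.2 := by
    intro t
    by_cases h : ∃ w ∈ S, Forces S φ (sn (sn (fun i => xs (up i)) ((xs nw).el t.1)) w) t.2
    · obtain ⟨w, hw, h1⟩ := h
      exact ⟨w, hw, fun _ => h1⟩
    · exact ⟨om P, hS.om, fun h' => absurd h' h⟩
  choose v hvS hv using hch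
  obtain ⟨y, hy, hmem⟩ := hS.bd v hvS
  refine forces_ex_of hy ?_
  rw [forces_all]
  intro u _
  rw [forces_imp]
  intro q _ hu
  rw [forces_imp]
  intro r hr hex
  rw [forces_mem] at hu
  simp only [sn_nw, sn_up] at hu
  rw [forces_ex] at hex ⊢
  intro r' hr'
  obtain ⟨s, hs, w, hw, h1⟩ := hex r' hr'
  rw [forces_ren, sn_comp (sn _ w), sn_comp (sn _ w)] at h1
  simp only [sn_nw, sn_up] at h1
  obtain ⟨t, ht, i, -, h2⟩ := forcesMem_iff.1 hu s ((hs.trans hr').trans hr)
  have key : ∀ w', Forces S φ (sn (sn (fun i => xs (up i)) u) w') t ↔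
      Forces S φ (sn (sn (fun i => xs (up i)) ((xs nw).el i)) w') t := by
    intro w'
    refine Forces.congr φ fun j => ?_
    refine Fin.lastCases ?_ (fun j => Fin.lastCases ?_ (fun j => ?_) j) j
    · change ForcesEq (sn _ w' nw) (sn _ w' nw) t
      rw [sn_nw, sn_nw]
      exact ForcesEq.refl _ _
    · change ForcesEq (sn (sn _ u) w' (up nw)) (sn (sn _ ((xs nw).el i)) w' (up nw)) t
      simp only [sn_nw, sn_up]
      exact h2
    · change ForcesEq (sn (sn _ u) w' (up (up j))) (sn (sn _ ((xs nw).el i)) w' (up (up j))) t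
      simp only [sn_up]
      exact ForcesEq.refl _ _
  have h3 := hv (i, t) ⟨w, hw, (key w).1 (h1.mono ht)⟩
  refine ⟨t, ht.trans hs, v (i, t), hvS _, forces_and.2 ⟨?_, ?_⟩⟩
  · rw [forces_mem]
    simp only [sn_nw, sn_up]
    exact hmem _ _
  · rw [forces_ren, sn_comp (sn _ _), sn_comp (sn _ _)]
    simp only [sn_nw, sn_up]
    exact (key _).2 h3

end Pool.Agent.helper57.Fc
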