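import Mathlib
import Pool.Agent.helper57.Fc.ZFCModel

set_option autoImplicit false

/-!
# Standard countable models from forcing

A refinement of `exists_gen`: the generic sequence of conditions also decides membership, so that
every element of a set of the model is the value of one of the names occurring in the name of that
set; and the list of names contains a given countable family of names.
-/

open FirstOrder FirstOrder.Language

namespace Pool.Agent.helper57.Fc

section Generic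

variable {P : Type} [Preorder P] {S : Set (Name P)}

/-- One step which decides membership. -/
theorem exists_step_mem (hS : ∀ x ∈ S, ∀ i, x.el i ∈ S) {x₀ : Name P} (hx₀ : x₀ ∈ S)
    (x y : Name P) (hy : y ∈ S) (p : P) :
    ∃ q ≤ p, ∃ z ∈ S, (∀ r ≤ q, ¬ ForcesMem x y r) ∨
      ∃ b : y.Idx, z = y.el b ∧ q ≤ y.cd b ∧ ForcesEq x z q := by
  by_cases h : ∃ q ≤ p, ForcesMem x y q
  · obtain ⟨q, hq, h1⟩ := h
    obtain ⟨r, hr, b, hb, h2⟩ := forcesMem_iff.1 h1 q le_rfl
    exact ⟨r, hr.trans hq, y.el b, hS _ hy b, Or.inr ⟨b, rfl, hb, h2⟩⟩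
  · push Not at h
    exact ⟨p, le_rfl, x₀, hx₀, Or.inl h⟩

/-- The tasks. -/
inductive Task : Type
  | fm (n : ℕ) (φ : Fm n) (a : Fin n → ℕ) : Task
  | mem (i j : ℕ) : Task
  | nm (i : ℕ) : Task

instance : Countable Task := by
  let f : Task → (Σ n, Fm n × (Fin n → ℕ)) ⊕ (ℕ × ℕ) ⊕ ℕ := fun t => match t with
    | .fm n φ a => Sum.inl ⟨n, φ, a⟩
    | .mem i j => Sum.inr (Sum.inl (i, j))
    | .nm i => Sum.inr (Sum.inr i)
  refine Function.Injective.countable (f := f) (fun s t h => ?_)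
  cases s <;> cases t <;> simp [f] at h
  · obtain ⟨h1, h2⟩ := h
    subst h1
    simp only [heq_eq_eq, Prod.mk.injEq] at h2
    rw [h2.1, h2.2]
  · rw [h.1, h.2]
  · rw [h]

/-- What is achieved by a task. -/
def Task.done (S : Set (Name P)) (Y : ℕ → Name P) : Task → (ℕ → Name P) → P → Name P → Prop
  | .fm _ φ a, X, q, y => (Forces S φ (fun i => X (a i)) q ∨ Forces S (∼φ) (fun i => X (a i)) q) ∧
      ∀ θ, φ = ∀' θ → (Forces S φ (fun i => X (a i)) q ∨
        Forces S (∼θ) (sn (fun i => X (a i)) y) q)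
  | .mem i j, X, q, y => (∀ r ≤ q, ¬ ForcesMem (X i) (X j) r) ∨
      ∃ b : (X j).Idx, y = (X j).el b ∧ q ≤ (X j).cd b ∧ ForcesEq (X i) y q
  | .nm i, _, _, y => y = Y i

theorem exists_step_task (hS : ∀ x ∈ S, ∀ i, x.el i ∈ S) {x₀ : Name P} (hx₀ : x₀ ∈ S)
    (Y : ℕ → Name P) (hY : ∀ i, Y i ∈ S) (t : Task) (X : ℕ → Name P) (hX : ∀ i, X i ∈ S) (p : P) :
    ∃ q ≤ p, ∃ y ∈ S, t.done S Y X q y := by
  cases t with
  | fm n φ a =>
    obtain ⟨q, hq, y, hy, h⟩ := exists_step hx₀ φ (fun i => X (a i)) p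
    exact ⟨q, hq, y, hy, h⟩
  | mem i j => exact exists_step_mem hS hx₀ (X i) (X j) (hX j) p
  | nm i => exact ⟨p, le_rfl, Y i, hY i, rfl⟩

/-- The bound for the indices occurring in a task. -/
def Task.bd : Task → ℕ → Prop
  | .fm _ _ a, N => ∀ i, a i < N
  | .mem i j, N => i < N ∧ j < N
  | .nm _, _ => True

theorem Task.exists_bd (t : Task) : ∃ N, t.bd N := by
  cases t with
  | fm n φ a =>
    obtain ⟨N, hN⟩ := (Set.finite_range a).bddAbove
    exact ⟨N + 1, fun i => Nat.lt_succ_of_le (hN ⟨i, rfl⟩)⟩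
  | mem i j => exact ⟨max i j + 1, Nat.lt_succ_of_le (le_max_left _ _),
      Nat.lt_succ_of_le (le_max_right _ _)⟩
  | nm i => exact ⟨0, trivial⟩

theorem Task.bd_mono {t : Task} {N k : ℕ} (h : t.bd N) (hk : N ≤ k) : t.bd k := by
  cases t with
  | fm n φ a => exact fun i => (h i).trans_le hk
  | mem i j => exact ⟨h.1.trans_le hk, h.2.trans_le hk⟩
  | nm i => trivial

theorem Task.done_congr {Y : ℕ → Name P} {t : Task} {X X' : ℕ → Name P} {q : P} {y : Name P}
    {N : ℕ} (hN : t.bd N) (h : ∀ i < N, X i = X' i) (hd : t.done S Y X q y) :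
    t.done S Y X' q y := by
  cases t with
  | fm n φ a =>
    have : (fun i => X (a i)) = fun i => X' (a i) := funext fun i => h _ (hN i)
    simp only [Task.done] at hd ⊢
    rw [this] at hd
    exact hd
  | mem i j =>
    simp only [Task.done] at hd ⊢
    rw [← h i hN.1, ← h j hN.2]
    exact hd
  | nm i => exact hd

/-- A generic sequence. -/
theorem exists_generic_std (hS : ∀ x ∈ S, ∀ i, x.el i ∈ S) {x₀ : Name P} (hx₀ : x₀ ∈ S)
    (Y : ℕ → Name P) (hY : ∀ i, Y i ∈ S) (p₀ : P) :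
    ∃ (p : ℕ → P) (X : ℕ → Name P), p 0 = p₀ ∧ (∀ k l, k ≤ l → p l ≤ p k) ∧ (∀ i, X i ∈ S) ∧
      ∀ t : Task, ∃ k i, t.done S Y X (p k) (X i) := by
  classical
  have hne : Nonempty Task := ⟨.nm 0⟩
  obtain ⟨f, hf⟩ := exists_surjective_nat Task
  let e : ℕ → Task := fun k => f (Nat.unpair k).1
  have he : ∀ (t : Task) (N : ℕ), ∃ k ≥ N, e k = t := by
    intro t N
    obtain ⟨m, rfl⟩ := hf t
    exact ⟨Nat.pair m N, Nat.right_le_pair m N, by simp [e]⟩
  choose q hq y hy hdone using fun (t : Task) (X : {X : ℕ → Name P // ∀ i, X i ∈ S}) (p : P) =>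
    exists_step_task hS hx₀ Y hY t X.1 X.2 p
  have hupd : ∀ (X : {X : ℕ → Name P // ∀ i, X i ∈ S}) (k : ℕ) (z : Name P), z ∈ S →
      ∀ i, Function.update X.1 k z i ∈ S := by
    intro X k z hz i
    by_cases hik : i = k
    · subst hik
      rw [Function.update_self]
      exact hz
    · rw [Function.update_of_ne hik]
      exact X.2 i
  let st : ℕ → P × {X : ℕ → Name P // ∀ i, X i ∈ S} := fun k =>
    Nat.rec (p₀, ⟨fun _ => x₀, fun _ => hx₀⟩) (fun k s =>
      (q (e k) s.2 s.1, ⟨Function.update s.2.1 k (y (e k) s.2 s.1),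
        hupd s.2 k _ (hy (e k) s.2 s.1)⟩)) k
  have hst1 : ∀ k, (st (k + 1)).1 = q (e k) (st k).2 (st k).1 := fun k => rfl
  have hst2 : ∀ k, (st (k + 1)).2.1 = Function.update (st k).2.1 k (y (e k) (st k).2 (st k).1) :=
    fun k => rfl
  have hp : ∀ k l, k ≤ l → (st l).1 ≤ (st k).1 := by
    intro k l hkl
    induction l, hkl using Nat.le_induction with
    | base => exact le_rfl
    | succ l _ ih =>
      rw [hst1]
      exact (hq _ _ _).trans ih
  have hx : ∀ i k, i < k → (st k).2.1 i = (st (i + 1)).2.1 i := by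
    intro i k hik
    induction k, hik using Nat.le_induction with
    | base => rfl
    | succ k hk ih =>
      rw [hst2, Function.update_of_ne (by omega), ih]
  refine ⟨fun k => (st k).1, fun i => (st (i + 1)).2.1 i, rfl, hp, fun i => (st (i + 1)).2.2 i,
    fun t => ?_⟩
  obtain ⟨N, hN⟩ := t.exists_bd
  obtain ⟨k, hk, hek⟩ := he t N
  refine ⟨k + 1, k, ?_⟩
  have h1 := hdone t (st k).2 (st k).1
  have h2 : (st (k + 1)).1 = q t (st k).2 (st k).1 := by rw [hst1, hek]
  have h3 : (st (k + 1)).2.1 k = y t (st k).2 (st k).1 := by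
    rw [hst2, hek, Function.update_self]
  change t.done S Y _ (st (k + 1)).1 ((st (k + 1)).2.1 k)
  rw [h2, h3]
  exact Task.done_congr (Task.bd_mono hN hk) (fun i hi => (hx i k hi)) h1

/-- The structure given by a generic sequence. -/
theorem exists_model_of {p : ℕ → P} {X : ℕ → Name P} (hp : ∀ k l, k ≤ l → p l ≤ p k)
    (hX : ∀ i, X i ∈ S)
    (hdec : ∀ (n : ℕ) (φ : Fm n) (a : Fin n → ℕ), ∃ k, Forces S φ (fun i => X (a i)) (p k) ∨
      Forces S (∼φ) (fun i => X (a i)) (p k))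
    (hwit : ∀ (n : ℕ) (θ : Fm (n + 1)) (a : Fin n → ℕ), ∃ k,
      Forces S (∀' θ) (fun i => X (a i)) (p k) ∨
        ∃ j, Forces S (∼θ) (sn (fun i => X (a i)) (X j)) (p k)) :
    ∃ (M : Type) (E : M → M → Prop) (c : ℕ → M), Function.Surjective c ∧
      ∀ (n : ℕ) (φ : Fm n) (a : Fin n → ℕ),
        Sat E φ (fun i => c (a i)) ↔ ∃ k, Forces S φ (fun i => X (a i)) (p k) := by
  let s : Setoid ℕ :=
    { r := fun i j => ∃ k, ForcesEq (X i) (X j) (p k)
      iseqv :=
        { refl := fun i => ⟨0, ForcesEq.refl _ _⟩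
          symm := fun ⟨k, h⟩ => ⟨k, h.symm⟩
          trans := fun ⟨k, h⟩ ⟨l, h'⟩ => ⟨max k l, (h.mono (hp _ _ (le_max_left _ _))).trans
            (h'.mono (hp _ _ (le_max_right _ _)))⟩ } }
  let E : Quotient s → Quotient s → Prop := Quotient.lift₂
    (fun i j => ∃ k, ForcesMem (X i) (X j) (p k)) (by
      intro i j i' j' hi hj
      have key : ∀ i j i' j', (∃ k, ForcesEq (X i) (X i') (p k)) →
          (∃ k, ForcesEq (X j) (X j') (p k)) → (∃ k, ForcesMem (X i) (X j) (p k)) →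
          ∃ k, ForcesMem (X i') (X j') (p k) := by
        rintro i j i' j' ⟨k1, h1⟩ ⟨k2, h2⟩ ⟨k3, h3⟩
        refine ⟨max k1 (max k2 k3), ?_⟩
        have e1 := h1.mono (hp _ _ (le_max_left k1 (max k2 k3)))
        have e2 := h2.mono (hp _ _ ((le_max_left k2 k3).trans (le_max_right k1 _)))
        have e3 := h3.mono (hp _ _ ((le_max_right k2 k3).trans (le_max_right k1 _)))
        exact (e3.congr_left e1).congr_right e2
      exact propext ⟨key i j i' j' hi hj, key i' j' i j (s.symm hi) (s.symm hj)⟩)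
  refine ⟨Quotient s, E, Quotient.mk s, Quotient.mk_surjective, ?_⟩
  intro n φ
  induction φ with
  | falsum =>
    intro a
    exact ⟨fun h => h.elim, fun ⟨_, h⟩ => h.elim⟩
  | equal t₁ t₂ =>
    intro a
    rw [sat_equal, tval_comp (Quotient.mk s) a t₁, tval_comp (Quotient.mk s) a t₂, Quotient.eq]
    change (∃ k, ForcesEq (X (tval a t₁)) (X (tval a t₂)) (p k)) ↔
      ∃ k, ForcesEq (tval (fun i => X (a i)) t₁) (tval (fun i => X (a i)) t₂) (p k)
    rw [tval_comp X a t₁, tval_comp X a t₂]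
  | rel R ts =>
    intro a
    cases R with
    | mem =>
      rw [sat_rel, tval_comp (Quotient.mk s) a (ts 0), tval_comp (Quotient.mk s) a (ts 1)]
      change (∃ k, ForcesMem (X (tval a (ts 0))) (X (tval a (ts 1))) (p k)) ↔
        ∃ k, ForcesMem (tval (fun i => X (a i)) (ts 0)) (tval (fun i => X (a i)) (ts 1)) (p k)
      rw [tval_comp X a (ts 0), tval_comp X a (ts 1)]
  | imp φ ψ ih1 ih2 =>
    intro a
    have h0 : Sat E (φ.imp ψ) (fun i => Quotient.mk s (a i)) ↔
        (Sat E φ (fun i => Quotient.mk s (a i)) → Sat E ψ (fun i => Quotient.mk s (a i))) :=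
      Iff.rfl
    rw [h0, ih1, ih2]
    constructor
    · intro h
      obtain ⟨k, h1 | h1⟩ := hdec _ φ a
      · obtain ⟨l, h2⟩ := h ⟨k, h1⟩
        exact ⟨l, fun q hq _ => h2.mono hq⟩
      · exact ⟨k, fun q hq h2 => absurd h2 (h1 q hq)⟩
    · rintro ⟨k, h⟩ ⟨l, h1⟩
      exact ⟨max k l, h _ (hp _ _ (le_max_left _ _)) (h1.mono (hp _ _ (le_max_right _ _)))⟩
  | all φ ih =>
    intro a
    have h0 : Sat E φ.all (fun i => Quotient.mk s (a i)) ↔
        ∀ x, Sat E φ (sn (fun i => Quotient.mk s (a i)) x) := Iff.rfl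
    have h1 : ∀ j, Sat E φ (sn (fun i => Quotient.mk s (a i)) (Quotient.mk s j)) ↔
        ∃ k, Forces S φ (sn (fun i => X (a i)) (X j)) (p k) := by
      intro j
      rw [← sn_comp (Quotient.mk s) a j, ← sn_comp X a j]
      exact ih (sn a j)
    rw [h0]
    constructor
    · intro h
      obtain ⟨k, h2 | ⟨j, h2⟩⟩ := hwit _ φ a
      · exact ⟨k, h2⟩
      · obtain ⟨l, h3⟩ := (h1 j).1 (h _)
        exact absurd (h3.mono (hp _ _ (le_max_right k l))) (h2 _ (hp _ _ (le_max_left k l)))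
    · rintro ⟨k, h⟩ x
      obtain ⟨j, rfl⟩ := Quotient.mk_surjective x
      exact (h1 j).2 ⟨k, h (X j) (hX j)⟩

/-- A countable standard model: every element of the value of a name is the value of a name
occurring in it (with a condition in the generic filter); all names `Y i` have values. -/
structure GenStd (S : Set (Name P)) (p₀ : P) (Y : ℕ → Name P) extends Gen S p₀ where
  std : ∀ i j, E (c i) (c j) → ∃ (b : (X j).Idx) (i' k : ℕ), X i' = (X j).el b ∧
    p k ≤ (X j).cd b ∧ c i = c i'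
  inc : ∀ i, ∃ j, X j = Y i

theorem exists_genStd (hS : ∀ x ∈ S, ∀ i, x.el i ∈ S) {x₀ : Name P} (hx₀ : x₀ ∈ S)
    (p₀ : P) (Y : ℕ → Name P) (hY : ∀ i, Y i ∈ S) : Nonempty (GenStd S p₀ Y) := by
  obtain ⟨p, X, h0, hp, hX, ht⟩ := exists_generic_std hS hx₀ Y hY p₀
  obtain ⟨M, E, c, hc, hsat⟩ := exists_model_of (S := S) hp hX
    (fun n φ a => by
      obtain ⟨k, i, h⟩ := ht (.fm n φ a)
      exact ⟨k, h.1⟩)
    (fun n θ a => by
      obtain ⟨k, i, h⟩ := ht (.fm n (∀' θ) a)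
      exact ⟨k, (h.2 θ rfl).imp id fun h => ⟨i, h⟩⟩)
  have hmem : ∀ i j, E (c i) (c j) ↔ ∃ k, ForcesMem (X i) (X j) (p k) := by
    intro i j
    exact hsat 2 (fMem 0 1) ![i, j]
  have heq : ∀ i j, c i = c j ↔ ∃ k, ForcesEq (X i) (X j) (p k) := by
    intro i j
    exact hsat 2 (fEq 0 1) ![i, j]
  refine ⟨⟨⟨M, E, p, X, c, hc, h0, hp, hX, hsat⟩, ?_, ?_⟩⟩
  · intro i j hij
    obtain ⟨k, hk⟩ := (hmem i j).1 hij
    obtain ⟨l, i', h | ⟨b, h1, h2, h3⟩⟩ := ht (.mem i j)
    · exact absurd (hk.mono (hp _ _ (le_max_left k l))) (h _ (hp _ _ (le_max_right k l)))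
    · exact ⟨b, i', l, h1, h2, (heq i i').2 ⟨l, h3⟩⟩
  · intro i
    obtain ⟨k, j, h⟩ := ht (.nm i)
    exact ⟨j, h⟩

end Generic

section Val

variable {P : Type} [Preorder P] {S : Set (Name P)} {p₀ : P} {Y : ℕ → Name P}

/-- The name `x` has a value. -/
def GenStd.In (G : GenStd S p₀ Y) (x : Name P) : Prop := ∃ i, G.X i = x

open Classical in
/-- The value of a name. -/
noncomputable def GenStd.val (G : GenStd S p₀ Y) (x : Name P) : G.M :=
  if h : ∃ i, G.X i = x then G.c h.choose else G.c 0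

variable (G : GenStd S p₀ Y)

theorem GenStd.sat_mem' {i j : ℕ} : G.E (G.c i) (G.c j) ↔ ∃ k, ForcesMem (G.X i) (G.X j) (G.p k) :=
  G.sat 2 (fMem 0 1) ![i, j]

theorem GenStd.sat_eq' {i j : ℕ} : G.c i = G.c j ↔ ∃ k, ForcesEq (G.X i) (G.X j) (G.p k) :=
  G.sat 2 (fEq 0 1) ![i, j]

theorem GenStd.val_X (i : ℕ) : G.val (G.X i) = G.c i := by
  have h : ∃ j, G.X j = G.X i := ⟨i, rfl⟩
  rw [GenStd.val, dif_pos h, G.sat_eq', h.choose_spec]
  exact ⟨0, ForcesEq.refl _ _⟩

theorem GenStd.exists_val (a : G.M) : ∃ x, G.In x ∧ G.val x = a := by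
  obtain ⟨i, rfl⟩ := G.surj a
  exact ⟨G.X i, ⟨i, rfl⟩, G.val_X i⟩

variable {G}

theorem GenStd.In.mem {x : Name P} (hx : G.In x) : x ∈ S := by
  obtain ⟨i, rfl⟩ := hx
  exact G.mem i

theorem GenStd.sat_val {n : ℕ} (φ : Fm n) {xs : Fin n → Name P} (h : ∀ i, G.In (xs i)) :
    Sat G.E φ (fun i => G.val (xs i)) ↔ ∃ k, Forces S φ xs (G.p k) := by
  choose a ha using h
  have : xs = fun i => G.X (a i) := funext fun i => (ha i).symm
  subst this
  simp only [G.val_X]
  exact G.sat n φ a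

theorem GenStd.mem_val {x y : Name P} (hx : G.In x) (hy : G.In y) :
    G.E (G.val x) (G.val y) ↔ ∃ k, ForcesMem x y (G.p k) := by
  obtain ⟨i, rfl⟩ := hx
  obtain ⟨j, rfl⟩ := hy
  rw [G.val_X, G.val_X]
  exact G.sat_mem'

theorem GenStd.val_eq {x y : Name P} (hx : G.In x) (hy : G.In y) :
    G.val x = G.val y ↔ ∃ k, ForcesEq x y (G.p k) := by
  obtain ⟨i, rfl⟩ := hx
  obtain ⟨j, rfl⟩ := hy
  rw [G.val_X, G.val_X]
  exact G.sat_eq'

/-- The elements of the value of a name. -/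
theorem GenStd.of_mem_val {y : Name P} (hy : G.In y) {t : G.M} (h : G.E t (G.val y)) :
    ∃ b : y.Idx, G.In (y.el b) ∧ t = G.val (y.el b) ∧ ∃ k, G.p k ≤ y.cd b := by
  obtain ⟨j, rfl⟩ := hy
  obtain ⟨i, rfl⟩ := G.surj t
  rw [G.val_X] at h
  obtain ⟨b, i', k, h1, h2, h3⟩ := G.std i j h
  refine ⟨b, ⟨i', h1⟩, ?_, k, h2⟩
  rw [h3, ← h1, G.val_X]

theorem GenStd.mem_ck_val [OrderTop P] {ι : Type} {x : ι → Name P} (hx : G.In (ck x))
    (hi : ∀ i, G.In (x i)) {t : G.M} : G.E t (G.val (ck x)) ↔ ∃ i, t = G.val (x i) := by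
  constructor
  · intro h
    obtain ⟨b, -, h1, -⟩ := G.of_mem_val hx h
    exact ⟨b, h1⟩
  · rintro ⟨i, rfl⟩
    exact (GenStd.mem_val (hi i) hx).2 ⟨0, mem_ck_self x i _⟩

end Val

/-! ### Hereditarily countable names -/

section HC

variable {P : Type}

/-- Hereditarily countable names. -/
def HC : Name P → Prop
  | .mk ι x _ => Countable ι ∧ ∀ i, HC (x i)

/-- `z` is in the transitive closure of `x` (or equal to `x`). -/
inductive InTc : Name P → Name P → Prop
  | refl (x : Name P) : InTc x x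
  | step {z : Name P} (x : Name P) (i : x.Idx) (h : InTc z (x.el i)) : InTc z x

theorem InTc.trans {x y z : Name P} (h : InTc x y) (h' : InTc y z) : InTc x z := by
  induction h' with
  | refl => exact h
  | step w i _ ih => exact InTc.step w i ih

theorem HC.countable {x : Name P} (hx : HC x) : {z | InTc z x}.Countable := by
  induction x with
  | mk ι x c ih =>
    obtain ⟨hι, hx⟩ := hx
    have h : {z | InTc z (Name.mk ι x c)} ⊆ {Name.mk ι x c} ∪ ⋃ i, {z | InTc z (x i)} := by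
      intro z hz
      cases hz with
      | refl => exact Or.inl rfl
      | step _ i h => exact Or.inr (Set.mem_iUnion.2 ⟨i, h⟩)
    exact ((Set.countable_singleton _).union (Set.countable_iUnion fun i => ih i (hx i))).mono h

theorem exists_enum {ι : Type} [Countable ι] [Nonempty ι] (x : ι → Name P)
    (hx : ∀ i, HC (x i)) : ∃ Y : ℕ → Name P, Set.range Y = {z | ∃ i, InTc z (x i)} := by
  have h : {z | ∃ i, InTc z (x i)}.Countable := by
    have : {z | ∃ i, InTc z (x i)} = ⋃ i, {z | InTc z (x i)} := by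
      ext z
      simp
    rw [this]
    exact Set.countable_iUnion fun i => (hx i).countable
  obtain ⟨i⟩ := (inferInstance : Nonempty ι)
  obtain ⟨Y, hY⟩ := h.exists_eq_range ⟨x i, i, InTc.refl _⟩
  exact ⟨Y, hY.symm⟩

theorem InTc.mem {S : Set (Name P)} (hS : ∀ x ∈ S, ∀ i, x.el i ∈ S) {x y : Name P}
    (h : InTc x y) (hy : y ∈ S) : x ∈ S := by
  induction h with
  | refl => exact hy
  | step w i _ ih => exact ih (hS _ hy i)

end HC

end Pool.Agent.helper57.Fc
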