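import Mathlib
import Pool.Agent.helper57.Fc.Std

set_option autoImplicit false

/-!
# Automorphisms of the poset and symmetric names
-/

open FirstOrder FirstOrder.Language

namespace Pool.Agent.helper57.Fc

section Map

variable {P : Type}

/-- The action of a map of the poset on names. -/
def Name.map (f : P → P) : Name P → Name P
  | .mk ι x c => .mk ι (fun i => (x i).map f) (fun i => f (c i))

theorem Name.map_mk (f : P → P) {ι : Type} (x : ι → Name P) (c : ι → P) :
    (Name.mk ι x c).map f = Name.mk ι (fun i => (x i).map f) (fun i => f (c i)) := rfl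

theorem Name.map_map (f g : P → P) (x : Name P) : (x.map g).map f = x.map (fun p => f (g p)) := by
  induction x with
  | mk ι x c ih =>
    simp only [Name.map_mk]
    congr 1
    exact funext fun i => ih i

theorem Name.map_id (x : Name P) : x.map (fun p => p) = x := by
  induction x with
  | mk ι x c ih =>
    simp only [Name.map_mk]
    congr 1
    exact funext fun i => ih i

end Map

section Auto

variable {P : Type} [Preorder P] (e : P ≃o P)

theorem forcesEq_map {x y : Name P} {p : P} :
    ForcesEq (x.map e) (y.map e) (e p) ↔ ForcesEq x y p := by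
  induction x generalizing y p with
  | mk ι x a ih =>
    obtain ⟨κ, y, b⟩ := y
    simp only [Name.map_mk, ForcesEq]
    refine and_congr (forall_congr' fun i => ?_) (forall_congr' fun j => ?_)
    · constructor
      · intro h q hq hqi
        obtain ⟨r, hr, j, hj, h1⟩ := h (e q) (e.monotone hq) (e.monotone hqi)
        refine ⟨e.symm r, by rw [← e.le_iff_le, e.apply_symm_apply]; exact hr, j,
          by rw [← e.le_iff_le, e.apply_symm_apply]; exact hj, ?_⟩
        rw [← ih, e.apply_symm_apply]
        exact h1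
      · intro h q hq hqi
        obtain ⟨r, hr, j, hj, h1⟩ := h (e.symm q)
          (by rw [← e.le_iff_le, e.apply_symm_apply]; exact hq)
          (by rw [← e.le_iff_le, e.apply_symm_apply]; exact hqi)
        refine ⟨e r, by rw [← e.symm.le_iff_le, e.symm_apply_apply]; exact hr, j,
          e.monotone hj, ?_⟩
        rw [ih]
        exact h1
    · constructor
      · intro h q hq hqi
        obtain ⟨r, hr, j, hj, h1⟩ := h (e q) (e.monotone hq) (e.monotone hqi)
        refine ⟨e.symm r, by rw [← e.le_iff_le, e.apply_symm_apply]; exact hr, j,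
          by rw [← e.le_iff_le, e.apply_symm_apply]; exact hj, ?_⟩
        rw [← ih, e.apply_symm_apply]
        exact h1
      · intro h q hq hqi
        obtain ⟨r, hr, j, hj, h1⟩ := h (e.symm q)
          (by rw [← e.le_iff_le, e.apply_symm_apply]; exact hq)
          (by rw [← e.le_iff_le, e.apply_symm_apply]; exact hqi)
        refine ⟨e r, by rw [← e.symm.le_iff_le, e.symm_apply_apply]; exact hr, j,
          e.monotone hj, ?_⟩
        rw [ih]
        exact h1

theorem forcesMem_map {x y : Name P} {p : P} :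
    ForcesMem (x.map e) (y.map e) (e p) ↔ ForcesMem x y p := by
  obtain ⟨κ, y, b⟩ := y
  simp only [Name.map_mk, ForcesMem]
  constructor
  · intro h q hq
    obtain ⟨r, hr, j, hj, h1⟩ := h (e q) (e.monotone hq)
    refine ⟨e.symm r, by rw [← e.le_iff_le, e.apply_symm_apply]; exact hr, j,
      by rw [← e.le_iff_le, e.apply_symm_apply]; exact hj, ?_⟩
    rw [← forcesEq_map e, e.apply_symm_apply]
    exact h1
  · intro h q hq
    obtain ⟨r, hr, j, hj, h1⟩ := h (e.symm q)
      (by rw [← e.le_iff_le, e.apply_symm_apply]; exact hq)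
    refine ⟨e r, by rw [← e.symm.le_iff_le, e.symm_apply_apply]; exact hr, j,
      e.monotone hj, ?_⟩
    rw [forcesEq_map]
    exact h1

theorem forcesEq_map' {x y : Name P} {p : P} :
    ForcesEq (x.map e) (y.map e) p ↔ ForcesEq x y (e.symm p) := by
  have h := forcesEq_map e (x := x) (y := y) (p := e.symm p)
  rw [e.apply_symm_apply] at h
  exact h

theorem forcesMem_map' {x y : Name P} {p : P} :
    ForcesMem (x.map e) (y.map e) p ↔ ForcesMem x y (e.symm p) := by
  have h := forcesMem_map e (x := x) (y := y) (p := e.symm p)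
  rw [e.apply_symm_apply] at h
  exact h

theorem Name.map_symm_map (x : Name P) : (x.map e).map e.symm = x := by
  rw [Name.map_map]
  simp only [e.symm_apply_apply]
  exact Name.map_id x

theorem Name.map_map_symm (x : Name P) : (x.map e.symm).map e = x := by
  rw [Name.map_map]
  simp only [e.apply_symm_apply]
  exact Name.map_id x

variable {e}

/-- The forcing relation is invariant under automorphisms. -/
theorem forces_map {S : Set (Name P)} (hS : ∀ x, x ∈ S → x.map e ∈ S)
    (hS' : ∀ x, x ∈ S → x.map e.symm ∈ S) {n : ℕ} (φ : Fm n) {xs : Fin n → Name P} {p : P} :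
    Forces S φ (fun i => (xs i).map e) (e p) ↔ Forces S φ xs p := by
  induction φ generalizing p with
  | falsum => exact Iff.rfl
  | equal t₁ t₂ =>
    change ForcesEq (tval (fun i => (xs i).map e) t₁) (tval (fun i => (xs i).map e) t₂) (e p) ↔
      ForcesEq (tval xs t₁) (tval xs t₂) p
    rw [tval_comp (fun x : Name P => x.map e) xs t₁, tval_comp (fun x : Name P => x.map e) xs t₂]
    exact forcesEq_map e
  | rel R ts =>
    cases R with
    | mem =>
      change ForcesMem (tval (fun i => (xs i).map e) (ts 0)) (tval (fun i => (xs i).map e) (ts 1))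
        (e p) ↔ ForcesMem (tval xs (ts 0)) (tval xs (ts 1)) p
      rw [tval_comp (fun x : Name P => x.map e) xs (ts 0),
        tval_comp (fun x : Name P => x.map e) xs (ts 1)]
      exact forcesMem_map e
  | imp φ ψ ih1 ih2 =>
    change (∀ q ≤ e p, Forces S φ (fun i => (xs i).map e) q →
      Forces S ψ (fun i => (xs i).map e) q) ↔ ∀ q ≤ p, Forces S φ xs q → Forces S ψ xs q
    constructor
    · intro h q hq h1
      exact ih2.1 (h (e q) (e.monotone hq) (ih1.2 h1))
    · intro h q hq h1
      have h2 : Forces S φ (fun i => (xs i).map e) (e (e.symm q)) := by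
        rw [e.apply_symm_apply]; exact h1
      have h3 := h (e.symm q) (by rw [← e.le_iff_le, e.apply_symm_apply]; exact hq) (ih1.1 h2)
      have h4 := ih2.2 h3
      rw [e.apply_symm_apply] at h4
      exact h4
  | all φ ih =>
    change (∀ x ∈ S, Forces S φ (sn (fun i => (xs i).map e) x) (e p)) ↔
      ∀ x ∈ S, Forces S φ (sn xs x) p
    constructor
    · intro h x hx
      have h1 := h (x.map e) (hS x hx)
      rw [← sn_comp (fun x : Name P => x.map e) xs x] at h1
      exact ih.1 h1
    · intro h x hx
      have h1 := (ih (xs := sn xs (x.map e.symm))).2 (h _ (hS' x hx))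
      rw [sn_comp (fun x : Name P => x.map e) xs, Name.map_map_symm] at h1
      exact h1

end Auto

/-! ### Symmetric names -/

section Symm

variable {P : Type} [Preorder P] {G : Type} [Group G] (act : G →* (P ≃o P)) (H : ℕ → Set G)

/-- The action on names. -/
def am (g : G) (x : Name P) : Name P := x.map (act g)

theorem am_mk (g : G) {ι : Type} (x : ι → Name P) (c : ι → P) :
    am act g (Name.mk ι x c) = Name.mk ι (fun i => am act g (x i)) (fun i => act g (c i)) := rfl

theorem am_am (g h : G) (x : Name P) : am act g (am act h x) = am act (g * h) x := by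
  unfold am
  rw [Name.map_map, map_mul]
  rfl

theorem am_one (x : Name P) : am act 1 x = x := by
  unfold am
  rw [map_one]
  exact Name.map_id x

/-- The name is (forced to be) fixed by `g`. -/
def Fixes (g : G) (x : Name P) : Prop := ∀ p, ForcesEq (am act g x) x p

/-- Hereditarily symmetric names. -/
def HS : Name P → Prop
  | .mk ι x c => (∃ N, ∀ g ∈ H N, Fixes act g (.mk ι x c)) ∧ ∀ i, HS (x i)

variable {act H}

theorem HS.symm {x : Name P} (h : HS act H x) : ∃ N, ∀ g ∈ H N, Fixes act g x := by
  obtain ⟨ι, x, c⟩ := x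
  exact h.1

theorem HS.el {x : Name P} (h : HS act H x) (i : x.Idx) : HS act H (x.el i) := by
  obtain ⟨ι, x, c⟩ := x
  exact h.2 i

theorem HS.intro {x : Name P} (h : ∃ N, ∀ g ∈ H N, Fixes act g x) (h' : ∀ i, HS act H (x.el i)) :
    HS act H x := by
  obtain ⟨ι, x, c⟩ := x
  exact ⟨h, h'⟩

theorem HS.am (hconj : ∀ (g : G) (N : ℕ), ∃ N', ∀ h ∈ H N', g⁻¹ * h * g ∈ H N) {x : Name P}
    (hx : HS act H x) (g : G) : HS act H (Fc.am act g x) := by
  induction x with
  | mk ι x c ih =>
    obtain ⟨⟨N, hN⟩, hx⟩ := hx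
    rw [am_mk]
    refine ⟨?_, fun i => ih i (hx i)⟩
    obtain ⟨N', hN'⟩ := hconj g N
    refine ⟨N', fun h hh p => ?_⟩
    rw [← am_mk, am_am]
    have h1 : h * g = g * (g⁻¹ * h * g) := by group
    rw [h1, ← am_am]
    have h2 := hN _ (hN' h hh)
    exact (forcesEq_map' (act g)).2 (h2 _)

theorem act_inv_symm (g : G) (p : P) : (act g⁻¹).symm p = act g p := by
  rw [map_inv]
  rfl

theorem act_symm (g : G) (p : P) : (act g).symm p = act g⁻¹ p := by
  rw [map_inv]
  rfl

theorem Fixes.inv {g : G} {x : Name P} (h : Fixes act g x) : Fixes act g⁻¹ x := by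
  intro p
  have h2 : ForcesEq (Fc.am act g⁻¹ (Fc.am act g x)) (Fc.am act g⁻¹ x) p :=
    (forcesEq_map' (act g⁻¹)).2 (h _)
  rw [am_am, inv_mul_cancel, am_one] at h2
  exact h2.symm

/-- The class of hereditarily symmetric names. -/
def HSN (act : G →* (P ≃o P)) (H : ℕ → Set G) : Set (Name P) := {x | HS act H x}

/-- The condition that conjugates of the groups `H N` contain groups of this form. -/
def Conj (H : ℕ → Set G) : Prop := ∀ (g : G) (N : ℕ), ∃ N', ∀ h ∈ H N', g⁻¹ * h * g ∈ H N

theorem forces_am (hconj : Conj H) (g : G)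
    {n : ℕ} (φ : Fm n) {xs : Fin n → Name P} {p : P} :
    Forces (HSN act H) φ (fun i => am act g (xs i)) (act g p) ↔ Forces (HSN act H) φ xs p := by
  refine forces_map (S := HSN act H) (e := act g) (fun x hx => HS.am hconj hx g)
    (fun x hx => ?_) φ
  have := HS.am hconj hx g⁻¹
  unfold Fc.am at this
  rw [map_inv] at this
  exact this

theorem forces_fixes (hconj : Conj H) {g : G}
    {n : ℕ} (φ : Fm n) {xs : Fin n → Name P} (hxs : ∀ i, Fixes act g (xs i)) {p : P} :
    Forces (HSN act H) φ xs (act g p) ↔ Forces (HSN act H) φ xs p := by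
  have h := forces_am (act := act) hconj g φ (xs := xs) (p := p)
  exact (Forces.congr φ fun i => (hxs i _).symm).trans h

theorem fixes_sepN {g : G} {x : Name P} (hx : Fixes act g x) {C : Name P → P → Prop}
    (hC : ∀ w, Reg (C w)) (hcongr : ∀ w w' q, ForcesEq w w' q → C w q → C w' q)
    (hg : ∀ w q, C (am act g w) (act g q) ↔ C w q) :
    Fixes act g (sepN x (fun i => C (x.el i))) := by
  intro p
  refine ForcesEq.ext (fun z q _ hz => ?_) (fun z q _ hz => ?_)
  · have e1 : z = am act g (am act g⁻¹ z) := by rw [am_am, mul_inv_cancel, am_one]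
    rw [e1] at hz
    have hz' := (forcesMem_map' (act g)).1 hz
    rw [mem_sepN' hC hcongr] at hz' ⊢
    refine ⟨?_, ?_⟩
    · have h1 : ForcesMem (am act g (am act g⁻¹ z)) (am act g x) q :=
        (forcesMem_map' (act g)).2 hz'.1
      rw [← e1] at h1
      exact h1.congr_right (hx q)
    · have h2 := (hg _ _).2 hz'.2
      rw [← e1, OrderIso.apply_symm_apply] at h2
      exact h2
  · have e1 : z = am act g (am act g⁻¹ z) := by rw [am_am, mul_inv_cancel, am_one]
    rw [e1]
    refine (forcesMem_map' (act g)).2 ?_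
    rw [mem_sepN' hC hcongr] at hz ⊢
    refine ⟨?_, ?_⟩
    · have h1 : ForcesMem z (am act g x) q := hz.1.congr_right (hx q).symm
      rw [e1] at h1
      exact (forcesMem_map' (act g)).1 h1
    · refine (hg _ _).1 ?_
      rw [← e1, OrderIso.apply_symm_apply]
      exact hz.2

variable [OrderTop P]

theorem am_ck {ι : Type} (g : G) (x : ι → Name P) (p : P) :
    ForcesEq (am act g (ck x)) (ck (fun i => am act g (x i))) p := by
  have htop : ∀ q : P, q ≤ act g ⊤ := by
    intro q
    rw [← (act g).symm.le_iff_le, OrderIso.symm_apply_apply]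
    exact le_top
  refine ⟨fun i q _ _ => ⟨q, le_rfl, i, le_top, ForcesEq.refl _ _⟩,
    fun i q _ _ => ⟨q, le_rfl, i, htop q, ForcesEq.refl _ _⟩⟩

theorem fixes_ck {ι : Type} {g : G} {x : ι → Name P}
    (h1 : ∀ i, ∃ j, ∀ p, ForcesEq (am act g (x i)) (x j) p)
    (h2 : ∀ j, ∃ i, ∀ p, ForcesEq (am act g (x i)) (x j) p) : Fixes act g (ck x) := by
  intro p
  refine (am_ck g x p).trans ⟨fun i q _ _ => ?_, fun j q _ _ => ?_⟩
  · obtain ⟨j, hj⟩ := h1 i
    exact ⟨q, le_rfl, j, le_top, hj q⟩
  · obtain ⟨i, hi⟩ := h2 j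
    exact ⟨q, le_rfl, i, le_top, hi q⟩

theorem fixes_ck' {ι : Type} {g : G} {x : ι → Name P} (h : ∀ i, Fixes act g (x i)) :
    Fixes act g (ck x) := fixes_ck (fun i => ⟨i, h i⟩) (fun i => ⟨i, h i⟩)

theorem fixes_nat (g : G) (n : ℕ) : Fixes act g (nat P n) := by
  induction n using Nat.strong_induction_on with
  | _ n ih =>
    rw [nat_def]
    exact fixes_ck' fun i => ih i.1 i.2

theorem fixes_om (g : G) : Fixes act g (om P) := fixes_ck' (fixes_nat g)

theorem hs_ck {ι : Type} {x : ι → Name P} (h : ∃ N, ∀ g ∈ H N, Fixes act g (ck x))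
    (h' : ∀ i, HS act H (x i)) : HS act H (ck x) := ⟨h, h'⟩

theorem hs_nat (n : ℕ) : HS act H (nat P n) := by
  induction n using Nat.strong_induction_on with
  | _ n ih =>
    have h := fun g => fixes_nat (act := act) g n
    rw [nat_def] at h ⊢
    exact hs_ck ⟨0, fun g _ => h g⟩ fun i => ih i.1 i.2

theorem hs_om : HS act H (om P) := hs_ck ⟨0, fun g _ => fixes_om g⟩ hs_nat

/-- The hereditarily symmetric names form a universe. -/
theorem nameUniv_HSN (hconj : Conj H) (hdec : ∀ M N, M ≤ N → H N ⊆ H M) :
    NameUniv (HSN act H) where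
  trans x hx i := HS.el hx i
  sep := by
    intro n φ xs hxs x hx
    refine HS.intro ?_ (fun i => HS.el hx i.1.1)
    choose N hN using fun i => (hxs i).symm
    obtain ⟨N', hN'⟩ := HS.symm hx
    obtain ⟨K, hK⟩ := (Set.finite_range N).bddAbove
    refine ⟨max K N', fun g hg => ?_⟩
    refine fixes_sepN (hN' g (hdec _ _ (le_max_right _ _) hg))
      (C := fun w => Forces (HSN act H) φ (sn xs w)) (fun w => Forces.reg _ _ _)
      (fun w w' q h h' => (forces_sn_congr h).1 h') (fun w q => ?_)
    rw [← forces_am (act := act) hconj g φ (xs := sn xs w) (p := q),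
      sn_comp (fun x : Name P => am act g x) xs w]
    refine Forces.congr φ fun i => ?_
    refine Fin.lastCases ?_ (fun i => ?_) i
    · have h1 : sn xs (am act g w) (Fin.last n) = am act g w := sn_nw xs _
      have h2 : sn (fun i => am act g (xs i)) (am act g w) (Fin.last n) = am act g w := sn_nw _ _
      rw [h1, h2]
      exact ForcesEq.refl _ _
    · have h1 : sn xs (am act g w) i.castSucc = xs i := sn_up xs _ i
      have h2 : sn (fun i => am act g (xs i)) (am act g w) i.castSucc = am act g (xs i) :=
        sn_up _ _ i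
      rw [h1, h2]
      refine ((hN i g (hdec _ _ ?_ hg)) _).symm
      exact (hK ⟨i, rfl⟩).trans (le_max_left _ _)
  bd := by
    intro ι f hf
    refine ⟨ck (fun t : ι × G => am act t.2 (f t.1)), ?_, fun i p => ?_⟩
    · refine hs_ck ⟨0, fun g _ => fixes_ck (fun t => ⟨(t.1, g * t.2), fun p => ?_⟩)
        (fun t => ⟨(t.1, g⁻¹ * t.2), fun p => ?_⟩)⟩ (fun t => HS.am hconj (hf _) _)
      · rw [am_am]
        exact ForcesEq.refl _ _
      · rw [am_am, mul_inv_cancel_left]
        exact ForcesEq.refl _ _
    · have := mem_ck_self (fun t : ι × G => am act t.2 (f t.1)) (i, 1) p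
      rw [am_one] at this
      exact this
  om := hs_om

end Symm

end Pool.Agent.helper57.Fc
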