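import Mathlib
import Pool.Agent.helper57.Fc.ZFDefs

set_option autoImplicit false

/-!
# Notions of set theory inside a structure `(M, E)`
-/

namespace Pool.Agent.helper57.Fc.Sem

variable {M : Type} (E : M → M → Prop)

/-- `z = {x, y}`. -/
def UPair (z x y : M) : Prop := ∀ t, E t z ↔ t = x ∨ t = y

/-- `z = (x, y)`, the Kuratowski ordered pair `{{x}, {x, y}}`. -/
def OPair (z x y : M) : Prop := ∀ t, E t z ↔ UPair E t x x ∨ UPair E t x y

/-- `(x, y) ∈ f`. -/
def App (f x y : M) : Prop := ∃ z, E z f ∧ OPair E z x y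

/-- `f` is a function from `a` to `b`. -/
def Fun (f a b : M) : Prop :=
  (∀ z, E z f → ∃ x, E x a ∧ ∃ y, E y b ∧ OPair E z x y) ∧
  (∀ x, E x a → ∃ y, E y b ∧ App E f x y) ∧
  ∀ x y y', App E f x y → App E f x y' → y = y'

/-- `f` is injective. -/
def Inj (f : M) : Prop := ∀ x x' y, App E f x y → App E f x' y → x = x'

/-- `f` maps `a` onto `b`. -/
def Surj (f a b : M) : Prop := ∀ y, E y b → ∃ x, E x a ∧ App E f x y

/-- `a` and `b` have the same cardinality: there is a bijection from `a` onto `b`. -/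
def Equip (a b : M) : Prop := ∃ f, Fun E f a b ∧ Inj E f ∧ Surj E f a b

/-- `x` is a transitive set. -/
def Trans (x : M) : Prop := ∀ y, E y x → ∀ z, E z y → E z x

/-- `x` is an ordinal: a transitive set of transitive sets. -/
def Ord (x : M) : Prop := Trans E x ∧ ∀ y, E y x → Trans E y

/-- `k` is a cardinal: an ordinal which is not equipotent to any smaller ordinal. -/
def Card (k : M) : Prop := Ord E k ∧ ∀ b, E b k → ¬ Equip E b k

/-- There is a function from `m` to `k` whose range is cofinal in the ordinal `k`. -/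
def Cofin (m k : M) : Prop :=
  ∃ f, Fun E f m k ∧ ∀ g, E g k → ∃ x, E x m ∧ ∃ d, App E f x d ∧ (E g d ∨ g = d)

/-- `m` is the cofinality of `k`: the least ordinal which has a cofinal function to `k`. -/
def IsCof (k m : M) : Prop := Ord E m ∧ Cofin E m k ∧ ∀ b, E b m → ¬ Cofin E b k

/-- The ordinal `w` is a (nonzero) limit ordinal. -/
def Lim (w : M) : Prop := (∃ t, E t w) ∧ ∀ t, E t w → ∃ s, E s w ∧ E t s

/-- The cardinal `k` is greater than `ω`: it has a limit ordinal as an element. -/
def GtOmega (k : M) : Prop := ∃ w, E w k ∧ Lim E w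

/-- `r ^ l < k`: the set `A` of all functions from `l` to `r` can be mapped injectively into some
ordinal `s ∈ k`. -/
def PowLt (r l k : M) : Prop :=
  ∃ s, E s k ∧ ∃ A, (∀ f, E f A ↔ Fun E f l r) ∧ ∃ e, Fun E e A s ∧ Inj E e

/-- `k → (m, l)²`: for each set `G` (the set of pairs of colour `1`) there is a subset `H` of `k`
of cardinality `m` no pair of elements of which belongs to `G`, or a subset `H` of `k` of
cardinality `l` all pairs of elements of which belong to `G`. -/
def Arrow (k m l : M) : Prop := ∀ G,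
  (∃ H, (∀ x, E x H → E x k) ∧ Equip E m H ∧
    ∀ x, E x H → ∀ y, E y H → x ≠ y → ¬ ∃ z, E z G ∧ UPair E z x y) ∨
  (∃ H, (∀ x, E x H → E x k) ∧ Equip E l H ∧
    ∀ x, E x H → ∀ y, E y H → x ≠ y → ∃ z, E z G ∧ UPair E z x y)

end Pool.Agent.helper57.Fc.Sem
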