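import Mathlib
import Pool.Agent.helper57.Fc.Pairs
import Pool.Agent.helper57.Fc.Sem

set_option autoImplicit false

/-!
# Formulas for notions of set theory
-/

open FirstOrder FirstOrder.Language

namespace Pool.Agent.helper57.Fc

/-- `∀ z ∈ j, φ(z)`. -/
def fBall {n : ℕ} (j : Fin n) (φ : Fm (n + 1)) : Fm n := ∀' (fMem nw (up j) ⟹ φ)

/-- `∃ z ∈ j, φ(z)`. -/
def fBex {n : ℕ} (j : Fin n) (φ : Fm (n + 1)) : Fm n := ∃' (fMem nw (up j) ⊓ φ)

/-- `f` is a function from `a` to `b`. -/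
def fFun {n : ℕ} (f a b : Fin n) : Fm n :=
  fBall f (fBex (up a) (fBex (up (up b)) (fOpair (up (up nw)) (up nw) nw))) ⊓
  (fBall a (fBex (up b) (fApp (up (up f)) (up nw) nw)) ⊓
  ∀' ∀' ∀' (fApp (up (up (up f))) (up (up nw)) (up nw) ⟹
    fApp (up (up (up f))) (up (up nw)) nw ⟹ fEq (up nw) nw))

/-- `f` is injective. -/
def fInj {n : ℕ} (f : Fin n) : Fm n :=
  ∀' ∀' ∀' (fApp (up (up (up f))) (up (up nw)) nw ⟹
    fApp (up (up (up f))) (up nw) nw ⟹ fEq (up (up nw)) (up nw))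

/-- `f` maps `a` onto `b`. -/
def fSurj {n : ℕ} (f a b : Fin n) : Fm n := fBall b (fBex (up a) (fApp (up (up f)) nw (up nw)))

/-- `a` and `b` have the same cardinality. -/
def fEquip {n : ℕ} (a b : Fin n) : Fm n :=
  ∃' (fFun nw (up a) (up b) ⊓ (fInj nw ⊓ fSurj nw (up a) (up b)))

/-- `x` is transitive. -/
def fTrans {n : ℕ} (x : Fin n) : Fm n := fBall x (fBall nw (fMem nw (up (up x))))

/-- `x` is an ordinal. -/
def fOrd {n : ℕ} (x : Fin n) : Fm n := fTrans x ⊓ fBall x (fTrans nw)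

/-- `k` is a cardinal. -/
def fCard {n : ℕ} (k : Fin n) : Fm n := fOrd k ⊓ fBall k (∼(fEquip nw (up k)))

/-- There is a cofinal function from `m` to `k`. -/
def fCofin {n : ℕ} (m k : Fin n) : Fm n :=
  ∃' (fFun nw (up m) (up k) ⊓ fBall (up k) (fBex (up (up m)) (∃' (
    fApp (up (up (up nw))) (up nw) nw ⊓ (fMem (up (up nw)) nw ⊔ fEq (up (up nw)) nw)))))

/-- `m` is the cofinality of `k`. -/
def fIsCof {n : ℕ} (k m : Fin n) : Fm n :=
  fOrd m ⊓ (fCofin m k ⊓ fBall m (∼(fCofin nw (up k))))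

/-- `w` is a limit ordinal. -/
def fLim {n : ℕ} (w : Fin n) : Fm n := ∃' (fMem nw (up w)) ⊓ fBall w (fBex (up w) (fMem (up nw) nw))

/-- `k` has a limit ordinal as an element. -/
def fGtOmega {n : ℕ} (k : Fin n) : Fm n := fBex k (fLim nw)

/-- `r ^ l < k`. -/
def fPowLt {n : ℕ} (r l k : Fin n) : Fm n :=
  fBex k (∃' (∀' (fMem nw (up nw) ⇔ fFun nw (up (up (up l))) (up (up (up r)))) ⊓
    ∃' (fFun nw (up nw) (up (up nw)) ⊓ fInj nw)))

/-- The pair of `x` and `y` belongs to `G`. -/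
def fPr {n : ℕ} (G x y : Fin n) : Fm n := fBex G (fUpair nw (up x) (up y))

/-- `k → (m, l)²`. -/
def fArrow {n : ℕ} (k m l : Fin n) : Fm n := ∀' (
  (∃' (fBall nw (fMem nw (up (up (up k)))) ⊓ (fEquip (up (up m)) nw ⊓
    fBall nw (fBall (up nw) (∼(fEq (up nw) nw) ⟹ ∼(fPr (up (up (up nw))) (up nw) nw)))))) ⊔
  (∃' (fBall nw (fMem nw (up (up (up k)))) ⊓ (fEquip (up (up l)) nw ⊓
    fBall nw (fBall (up nw) (∼(fEq (up nw) nw) ⟹ fPr (up (up (up nw))) (up nw) nw))))))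

section Sat

variable {M : Type} {E : M → M → Prop} {n : ℕ} {a : Fin n → M}

theorem sat_ball {j : Fin n} {φ : Fm (n + 1)} :
    Sat E (fBall j φ) a ↔ ∀ x, E x (a j) → Sat E φ (sn a x) := by
  unfold fBall
  rw [sat_all]
  simp only [sat_imp, sat_mem, sn_up, sn_nw]

theorem sat_bex {j : Fin n} {φ : Fm (n + 1)} :
    Sat E (fBex j φ) a ↔ ∃ x, E x (a j) ∧ Sat E φ (sn a x) := by
  unfold fBex
  rw [sat_ex]
  simp only [sat_and, sat_mem, sn_up, sn_nw]

theorem sat_upair {z x y : Fin n} :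
    Sat E (fUpair z x y) a ↔ Sem.UPair E (a z) (a x) (a y) := by
  simp only [fUpair, sat_all, sat_iff, sat_or, sat_mem, sat_eq, sn_up, sn_nw, Sem.UPair]

theorem sat_opair {z x y : Fin n} :
    Sat E (fOpair z x y) a ↔ Sem.OPair E (a z) (a x) (a y) := by
  simp only [fOpair, sat_all, sat_iff, sat_or, sat_mem, sat_upair, sn_up, sn_nw, Sem.OPair]

theorem sat_app {f x y : Fin n} :
    Sat E (fApp f x y) a ↔ Sem.App E (a f) (a x) (a y) := by
  simp only [fApp, sat_ex, sat_and, sat_mem, sat_opair, sn_up, sn_nw, Sem.App]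

theorem sat_fun {f x y : Fin n} :
    Sat E (fFun f x y) a ↔ Sem.Fun E (a f) (a x) (a y) := by
  simp only [fFun, sat_ball, sat_bex, sat_all, sat_imp, sat_and, sat_opair, sat_app, sat_eq,
    sn_up, sn_nw, Sem.Fun]

theorem sat_inj {f : Fin n} : Sat E (fInj f) a ↔ Sem.Inj E (a f) := by
  simp only [fInj, sat_all, sat_imp, sat_app, sat_eq, sn_up, sn_nw, Sem.Inj]

theorem sat_surj {f x y : Fin n} : Sat E (fSurj f x y) a ↔ Sem.Surj E (a f) (a x) (a y) := by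
  simp only [fSurj, sat_ball, sat_bex, sat_app, sn_up, sn_nw, Sem.Surj]

theorem sat_equip {x y : Fin n} : Sat E (fEquip x y) a ↔ Sem.Equip E (a x) (a y) := by
  simp only [fEquip, sat_ex, sat_and, sat_fun, sat_inj, sat_surj, sn_up, sn_nw, Sem.Equip]

theorem sat_trans {x : Fin n} : Sat E (fTrans x) a ↔ Sem.Trans E (a x) := by
  simp only [fTrans, sat_ball, sat_mem, sn_up, sn_nw, Sem.Trans]

theorem sat_ord {x : Fin n} : Sat E (fOrd x) a ↔ Sem.Ord E (a x) := by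
  simp only [fOrd, sat_ball, sat_and, sat_trans, sn_nw, Sem.Ord]

theorem sat_card {x : Fin n} : Sat E (fCard x) a ↔ Sem.Card E (a x) := by
  simp only [fCard, sat_ball, sat_and, sat_not, sat_ord, sat_equip, sn_up, sn_nw, Sem.Card]

theorem sat_cofin {m k : Fin n} : Sat E (fCofin m k) a ↔ Sem.Cofin E (a m) (a k) := by
  simp only [fCofin, sat_ex, sat_ball, sat_bex, sat_and, sat_or, sat_mem, sat_eq, sat_fun,
    sat_app, sn_up, sn_nw, Sem.Cofin]

theorem sat_isCof {k m : Fin n} : Sat E (fIsCof k m) a ↔ Sem.IsCof E (a k) (a m) := by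
  simp only [fIsCof, sat_ball, sat_and, sat_not, sat_ord, sat_cofin, sn_up, sn_nw, Sem.IsCof]

theorem sat_lim {w : Fin n} : Sat E (fLim w) a ↔ Sem.Lim E (a w) := by
  simp only [fLim, sat_ex, sat_ball, sat_bex, sat_and, sat_mem, sn_up, sn_nw, Sem.Lim]

theorem sat_gtOmega {w : Fin n} : Sat E (fGtOmega w) a ↔ Sem.GtOmega E (a w) := by
  simp only [fGtOmega, sat_bex, sat_lim, sn_nw, Sem.GtOmega]

theorem sat_powLt {r l k : Fin n} : Sat E (fPowLt r l k) a ↔ Sem.PowLt E (a r) (a l) (a k) := by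
  simp only [fPowLt, sat_ex, sat_all, sat_bex, sat_and, sat_iff, sat_mem, sat_fun, sat_inj,
    sn_up, sn_nw, Sem.PowLt]

theorem sat_pr {G x y : Fin n} :
    Sat E (fPr G x y) a ↔ ∃ z, E z (a G) ∧ Sem.UPair E z (a x) (a y) := by
  simp only [fPr, sat_bex, sat_upair, sn_up, sn_nw]

theorem sat_arrow {k m l : Fin n} : Sat E (fArrow k m l) a ↔ Sem.Arrow E (a k) (a m) (a l) := by
  simp only [fArrow, sat_all, sat_ex, sat_or, sat_and, sat_ball, sat_imp, sat_not, sat_mem,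
    sat_eq, sat_equip, sat_pr, sn_up, sn_nw, Sem.Arrow, ne_eq]

end Sat

end Pool.Agent.helper57.Fc
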