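import Mathlib
import Pool.Agent.helper57.Fc.ZFDefs
import Pool.Agent.helper57.Fc.Sem

set_option autoImplicit false

/-!
# Definability with parameters in a structure `(M, E)`
-/

open FirstOrder FirstOrder.Language

namespace Pool.Agent.helper57.Fc

section Dfn

variable {M : Type}

/-- The value of a variable or a parameter. -/
def ev {n : ℕ} (v : Fin n → M) : Fin n ⊕ M → M := Sum.elim v id

/-- The property `P` is definable with parameters. -/
def Dfn (E : M → M → Prop) {n : ℕ} (P : (Fin n → M) → Prop) : Prop :=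
  ∃ (m : ℕ) (φ : Fm m) (t : Fin m → Fin n ⊕ M), ∀ v, Sat E φ (fun i => ev v (t i)) ↔ P v

/-- `s` is a variable or a parameter. -/
def Tm {n : ℕ} (s : (Fin n → M) → M) : Prop := ∃ t : Fin n ⊕ M, ∀ v, s v = ev v t

theorem Tm.var {n : ℕ} (i : Fin n) : Tm (fun v : Fin n → M => v i) := ⟨Sum.inl i, fun _ => rfl⟩

theorem Tm.const {n : ℕ} (a : M) : Tm (fun _ : Fin n → M => a) := ⟨Sum.inr a, fun _ => rfl⟩

theorem Tm.ren {n k : ℕ} {s : (Fin n → M) → M} (hs : Tm s) (f : Fin n → Fin k) :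
    Tm (fun w : Fin k → M => s (fun i => w (f i))) := by
  obtain ⟨t, ht⟩ := hs
  cases t with
  | inl i => exact ⟨Sum.inl (f i), fun v => ht _⟩
  | inr a => exact ⟨Sum.inr a, fun v => ht _⟩

variable {E : M → M → Prop} {n : ℕ}

theorem Dfn.congr {P Q : (Fin n → M) → Prop} (h : ∀ v, P v ↔ Q v) (hP : Dfn E P) : Dfn E Q := by
  obtain ⟨m, φ, t, ht⟩ := hP
  exact ⟨m, φ, t, fun v => (ht v).trans (h v)⟩

theorem Dfn.mem {s t : (Fin n → M) → M} (hs : Tm s) (ht : Tm t) :
    Dfn E (fun v => E (s v) (t v)) := by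
  obtain ⟨s', hs'⟩ := hs
  obtain ⟨t', ht'⟩ := ht
  refine ⟨2, fMem 0 1, ![s', t'], fun v => ?_⟩
  change _ ↔ E (s v) (t v)
  rw [sat_mem, hs', ht']
  rfl

theorem Dfn.eq {s t : (Fin n → M) → M} (hs : Tm s) (ht : Tm t) :
    Dfn E (fun v => s v = t v) := by
  obtain ⟨s', hs'⟩ := hs
  obtain ⟨t', ht'⟩ := ht
  refine ⟨2, fEq 0 1, ![s', t'], fun v => ?_⟩
  change _ ↔ s v = t v
  rw [sat_eq, hs', ht']
  rfl

theorem Dfn.not {P : (Fin n → M) → Prop} (h : Dfn E P) : Dfn E (fun v => ¬ P v) := by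
  obtain ⟨m, φ, t, ht⟩ := h
  exact ⟨m, ∼φ, t, fun v => by rw [sat_not, ht]⟩

theorem Dfn.const (p : Prop) : Dfn E (fun _ : Fin n → M => p) := by
  by_cases hp : p
  · exact ⟨0, ∼⊥, Fin.elim0, fun v => by rw [sat_not, sat_falsum]; simp [hp]⟩
  · exact ⟨0, ⊥, Fin.elim0, fun v => by rw [sat_falsum]; simp [hp]⟩

theorem Dfn.imp {P Q : (Fin n → M) → Prop} (hP : Dfn E P) (hQ : Dfn E Q) :
    Dfn E (fun v => P v → Q v) := by
  obtain ⟨m, φ, t, ht⟩ := hP
  obtain ⟨m', φ', t', ht'⟩ := hQ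
  refine ⟨m + m', ren (Fin.castAdd m') φ ⟹ ren (Fin.natAdd m) φ', Fin.append t t', fun v => ?_⟩
  rw [sat_imp, sat_ren, sat_ren]
  simp only [Fin.append_left, Fin.append_right]
  rw [ht, ht']

theorem Dfn.and {P Q : (Fin n → M) → Prop} (hP : Dfn E P) (hQ : Dfn E Q) :
    Dfn E (fun v => P v ∧ Q v) :=
  (hP.imp hQ.not).not.congr fun v => by tauto

theorem Dfn.or {P Q : (Fin n → M) → Prop} (hP : Dfn E P) (hQ : Dfn E Q) :
    Dfn E (fun v => P v ∨ Q v) :=
  (hP.not.imp hQ).congr fun v => by tauto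

theorem Dfn.iff {P Q : (Fin n → M) → Prop} (hP : Dfn E P) (hQ : Dfn E Q) :
    Dfn E (fun v => (P v ↔ Q v)) :=
  ((hP.imp hQ).and (hQ.imp hP)).congr fun v => by tauto

theorem Dfn.all {P : (Fin n → M) → M → Prop}
    (h : Dfn E (fun w : Fin (n + 1) → M => P (fun i => w (up i)) (w nw))) :
    Dfn E (fun v => ∀ x, P v x) := by
  classical
  by_cases hM : Nonempty M
  · obtain ⟨a₀⟩ := hM
    obtain ⟨m, φ, t, ht⟩ := h
    let g : Fin m → Fin (m + 1) := fun i => if t i = Sum.inl nw then nw else up i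
    let t' : Fin m → Fin n ⊕ M := fun i => match t i with
      | Sum.inl j => Fin.lastCases (motive := fun _ => Fin n ⊕ M) (Sum.inr a₀)
          (fun j' => Sum.inl j') j
      | Sum.inr a => Sum.inr a
    refine ⟨m, ∀' (ren g φ), t', fun v => ?_⟩
    rw [sat_all]
    refine forall_congr' fun x => ?_
    rw [sat_ren]
    have h1 : (fun i => sn (fun i => ev v (t' i)) x (g i)) = fun i => ev (sn v x) (t i) := by
      funext i
      rcases hti : t i with j | a
      · rcases Fin.eq_castSucc_or_eq_last j with ⟨j', rfl⟩ | rfl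
        · have h2 : g i = up i := by
            simp only [g, hti]
            rw [if_neg]
            intro h3
            exact (Fin.castSucc_lt_last j').ne (Sum.inl_injective h3)
          have h3 : t' i = Sum.inl j' := by
            simp only [t', hti, Fin.lastCases_castSucc]
          rw [h2, sn_up, h3]
          exact (sn_up v x j').symm
        · have h2 : g i = nw := by
            simp only [g, hti]
            rw [if_pos]
            rfl
          rw [h2, sn_nw]
          exact (sn_nw v x).symm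
      · have h2 : g i = up i := by simp only [g, hti]; rw [if_neg (by simp)]
        have h3 : t' i = Sum.inr a := by simp only [t', hti]
        rw [h2, sn_up, h3]
        rfl
    rw [h1, ht]
    simp only [sn_up, sn_nw]
  · refine (Dfn.const True).congr fun v => ⟨fun _ x => absurd ⟨x⟩ hM, fun _ => trivial⟩

theorem Dfn.ex {P : (Fin n → M) → M → Prop}
    (h : Dfn E (fun w : Fin (n + 1) → M => P (fun i => w (up i)) (w nw))) :
    Dfn E (fun v => ∃ x, P v x) :=
  (Dfn.all (P := fun v x => ¬ P v x) h.not).not.congr fun v => by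
    simp

/-- Substitution of terms for variables. -/
theorem Dfn.subst {k : ℕ} {P : (Fin n → M) → Prop} (h : Dfn E P)
    (s : Fin n → (Fin k → M) → M) (hs : ∀ i, Tm (s i)) :
    Dfn E (fun v : Fin k → M => P (fun i => s i v)) := by
  obtain ⟨m, φ, t, ht⟩ := h
  choose s' hs' using hs
  refine ⟨m, φ, fun i => Sum.elim s' Sum.inr (t i), fun v => ?_⟩
  change _ ↔ P (fun i => s i v)
  rw [← ht]
  have : (fun i => ev v (Sum.elim s' Sum.inr (t i))) = fun i => ev (fun i => s i v) (t i) := by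
    funext i
    rcases t i with j | a
    · exact (hs' j v).symm
    · rfl
  rw [this]

theorem Dfn.sub1 {P : M → Prop} (h : Dfn E (fun v : Fin 1 → M => P (v 0)))
    {s : (Fin n → M) → M} (hs : Tm s) : Dfn E (fun v => P (s v)) :=
  h.subst (fun _ => s) (fun _ => hs)

theorem Dfn.sub2 {P : M → M → Prop} (h : Dfn E (fun v : Fin 2 → M => P (v 0) (v 1)))
    {s t : (Fin n → M) → M} (hs : Tm s) (ht : Tm t) : Dfn E (fun v => P (s v) (t v)) :=
  h.subst ![s, t] (fun i => by fin_cases i <;> assumption)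

theorem Dfn.sub3 {P : M → M → M → Prop} (h : Dfn E (fun v : Fin 3 → M => P (v 0) (v 1) (v 2)))
    {s t u : (Fin n → M) → M} (hs : Tm s) (ht : Tm t) (hu : Tm u) :
    Dfn E (fun v => P (s v) (t v) (u v)) :=
  h.subst ![s, t, u] (fun i => by fin_cases i <;> assumption)

/-- Separation for a definable property. -/
theorem IsZF.sp (hM : IsZF E) {P : M → Prop} (hP : Dfn E (fun v : Fin 1 → M => P (v 0))) (x : M) :
    ∃ y, ∀ z, E z y ↔ E z x ∧ P z := by
  classical
  obtain ⟨m, φ, t, ht⟩ := hP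
  let g : Fin m → Fin (m + 1) := fun i => match t i with
    | Sum.inl _ => nw
    | Sum.inr _ => up i
  let a : Fin m → M := fun i => match t i with
    | Sum.inl _ => x
    | Sum.inr b => b
  obtain ⟨y, hy⟩ := hM.sep m (ren g φ) a x
  refine ⟨y, fun z => ?_⟩
  have h0 : Sat E φ (fun i => ev (fun _ : Fin 1 => z) (t i)) ↔ P z := ht (fun _ => z)
  rw [hy, sat_ren, ← h0]
  have h1 : (fun i => sn a z (g i)) = fun i => ev (fun _ : Fin 1 => z) (t i) := by
    funext i
    rcases hti : t i with j | b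
    · have h2 : g i = nw := by simp only [g, hti]
      rw [h2, sn_nw]
      rfl
    · have h2 : g i = up i := by simp only [g, hti]
      have h3 : a i = b := by simp only [a, hti]
      rw [h2, sn_up, h3]
      rfl
  rw [h1]

end Dfn

section Notions

variable {M : Type} {E : M → M → Prop} {n : ℕ}

open Sem

theorem Dfn.upair {z x y : (Fin n → M) → M} (hz : Tm z) (hx : Tm x) (hy : Tm y) :
    Dfn E (fun v => UPair E (z v) (x v) (y v)) := by
  unfold UPair
  (repeat' (first | exact Tm.var _ | exact Tm.const _ | exact Tm.ren (by assumption) _ | assumption | apply Dfn.all | apply Dfn.ex | apply Dfn.and | apply Dfn.or | apply Dfn.iff | apply Dfn.not | apply Dfn.imp | apply Dfn.mem | apply Dfn.eq))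

theorem Dfn.opair {z x y : (Fin n → M) → M} (hz : Tm z) (hx : Tm x) (hy : Tm y) :
    Dfn E (fun v => OPair E (z v) (x v) (y v)) := by
  unfold OPair UPair
  (repeat' (first | exact Tm.var _ | exact Tm.const _ | exact Tm.ren (by assumption) _ | assumption | apply Dfn.all | apply Dfn.ex | apply Dfn.and | apply Dfn.or | apply Dfn.iff | apply Dfn.not | apply Dfn.imp | apply Dfn.mem | apply Dfn.eq))

theorem Dfn.app {f x y : (Fin n → M) → M} (hf : Tm f) (hx : Tm x) (hy : Tm y) :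
    Dfn E (fun v => App E (f v) (x v) (y v)) := by
  unfold App OPair UPair
  (repeat' (first | exact Tm.var _ | exact Tm.const _ | exact Tm.ren (by assumption) _ | assumption | apply Dfn.all | apply Dfn.ex | apply Dfn.and | apply Dfn.or | apply Dfn.iff | apply Dfn.not | apply Dfn.imp | apply Dfn.mem | apply Dfn.eq))

theorem Dfn.funct {f x y : (Fin n → M) → M} (hf : Tm f) (hx : Tm x) (hy : Tm y) :
    Dfn E (fun v => Fun E (f v) (x v) (y v)) := by
  unfold Fun App OPair UPair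
  (repeat' (first | exact Tm.var _ | exact Tm.const _ | exact Tm.ren (by assumption) _ | assumption | apply Dfn.all | apply Dfn.ex | apply Dfn.and | apply Dfn.or | apply Dfn.iff | apply Dfn.not | apply Dfn.imp | apply Dfn.mem | apply Dfn.eq))

end Notions

/-! ### Pairs, relations and functions in a model of ZF -/

section Inner

variable {M : Type} {E : M → M → Prop} (hM : IsZF E)

open Sem

include hM

theorem IsZF.exists_upair (x y : M) : ∃ z, UPair E z x y := hM.pair x y

theorem IsZF.upair_uniq {z z' x y : M} (h : UPair E z x y) (h' : UPair E z' x y) : z = z' :=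
  hM.ext _ _ fun t => (h t).trans (h' t).symm

omit hM in
theorem upair_inj {z x y x' y' : M} (h : UPair E z x y) (h' : UPair E z x' y') :
    (x = x' ∧ y = y') ∨ (x = y' ∧ y = x') := by
  have h1 := (h' x).1 ((h x).2 (Or.inl rfl))
  have h2 := (h' y).1 ((h y).2 (Or.inr rfl))
  have h3 := (h x').1 ((h' x').2 (Or.inl rfl))
  have h4 := (h y').1 ((h' y').2 (Or.inr rfl))
  rcases h1 with h1 | h1 <;> rcases h2 with h2 | h2
  · rcases h4 with h4 | h4
    · exact Or.inl ⟨h1, by rw [h2, h4, h1]⟩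
    · exact Or.inl ⟨h1, h4.symm⟩
  · exact Or.inl ⟨h1, h2⟩
  · exact Or.inr ⟨h1, h2⟩
  · rcases h3 with h3 | h3
    · exact Or.inl ⟨h3.symm, h2⟩
    · exact Or.inr ⟨h1, h3.symm⟩

theorem IsZF.exists_opair (x y : M) : ∃ z, OPair E z x y := by
  obtain ⟨u, hu⟩ := hM.exists_upair x x
  obtain ⟨v, hv⟩ := hM.exists_upair x y
  obtain ⟨z, hz⟩ := hM.exists_upair u v
  refine ⟨z, fun t => ?_⟩
  rw [hz t]
  constructor
  · rintro (h | h)
    · subst h; exact Or.inl hu
    · subst h; exact Or.inr hv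
  · rintro (h | h)
    · exact Or.inl (hM.upair_uniq h hu)
    · exact Or.inr (hM.upair_uniq h hv)

theorem IsZF.opair_uniq {z z' x y : M} (h : OPair E z x y) (h' : OPair E z' x y) : z = z' :=
  hM.ext _ _ fun t => (h t).trans (h' t).symm

theorem IsZF.opair_inj {z x y x' y' : M} (h : OPair E z x y) (h' : OPair E z x' y') :
    x = x' ∧ y = y' := by
  obtain ⟨u, hu⟩ := hM.exists_upair x x
  obtain ⟨v, hv⟩ := hM.exists_upair x y
  obtain ⟨u', hu'⟩ := hM.exists_upair x' x'
  obtain ⟨v', hv'⟩ := hM.exists_upair x' y'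
  have h1 : UPair E z u v := fun t => by
    rw [h t]
    constructor
    · rintro (h | h)
      · exact Or.inl (hM.upair_uniq h hu)
      · exact Or.inr (hM.upair_uniq h hv)
    · rintro (h | h)
      · subst h; exact Or.inl hu
      · subst h; exact Or.inr hv
  have h2 : UPair E z u' v' := fun t => by
    rw [h' t]
    constructor
    · rintro (h | h)
      · exact Or.inl (hM.upair_uniq h hu')
      · exact Or.inr (hM.upair_uniq h hv')
    · rintro (h | h)
      · subst h; exact Or.inl hu'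
      · subst h; exact Or.inr hv'
  rcases Fc.upair_inj h1 h2 with ⟨h3, h4⟩ | ⟨h3, h4⟩
  · subst h3 h4
    have hx : x = x' := by
      rcases Fc.upair_inj hu hu' with h | h
      · exact h.1
      · exact h.1
    subst hx
    rcases Fc.upair_inj hv hv' with h | h
    · exact ⟨rfl, h.2⟩
    · exact ⟨rfl, by rw [h.2, h.1]⟩
  · subst h3 h4
    rcases Fc.upair_inj hu hv' with h | h <;> rcases Fc.upair_inj hv hu' with h' | h'
    · exact ⟨h.1, by rw [h'.2, ← h.1, h.2]⟩
    · exact ⟨h.1, by rw [h'.2, ← h.1, h.2]⟩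
    · exact ⟨h.2, by rw [h'.2, ← h.2, h.1]⟩
    · exact ⟨h.2, by rw [h'.2, ← h.2, h.1]⟩

theorem IsZF.exists_union2 (a b : M) : ∃ c, ∀ t, E t c ↔ E t a ∨ E t b := by
  obtain ⟨u, hu⟩ := hM.exists_upair a b
  obtain ⟨c, hc⟩ := hM.union u
  refine ⟨c, fun t => ?_⟩
  rw [hc]
  constructor
  · rintro ⟨v, h1, h2⟩
    rcases (hu v).1 h1 with rfl | rfl
    · exact Or.inl h2
    · exact Or.inr h2
  · rintro (h | h)
    · exact ⟨a, (hu a).2 (Or.inl rfl), h⟩
    · exact ⟨b, (hu b).2 (Or.inr rfl), h⟩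

/-- The set of all pairs in a definable relation. -/
theorem IsZF.exists_rel (a b : M) {R : M → M → Prop}
    (hR : Dfn E (fun v : Fin 2 → M => R (v 0) (v 1))) :
    ∃ r, ∀ z, E z r ↔ ∃ x y, E x a ∧ E y b ∧ OPair E z x y ∧ R x y := by
  obtain ⟨c, hc⟩ := hM.exists_union2 a b
  obtain ⟨p, hp⟩ := hM.power c
  obtain ⟨p', hp'⟩ := hM.power p
  obtain ⟨r, hr⟩ := hM.sp (P := fun z => ∃ x y, E x a ∧ E y b ∧ OPair E z x y ∧ R x y) (by
    apply Dfn.ex
    apply Dfn.ex
    apply Dfn.and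
    · (repeat' (first | exact Tm.var _ | exact Tm.const _ | exact Tm.ren (by assumption) _ | assumption | apply Dfn.all | apply Dfn.ex | apply Dfn.and | apply Dfn.or | apply Dfn.iff | apply Dfn.not | apply Dfn.imp | apply Dfn.mem | apply Dfn.eq))
    · apply Dfn.and
      · (repeat' (first | exact Tm.var _ | exact Tm.const _ | exact Tm.ren (by assumption) _ | assumption | apply Dfn.all | apply Dfn.ex | apply Dfn.and | apply Dfn.or | apply Dfn.iff | apply Dfn.not | apply Dfn.imp | apply Dfn.mem | apply Dfn.eq))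
      · apply Dfn.and
        · exact Dfn.opair (Tm.var _) (Tm.var _) (Tm.var _)
        · exact Dfn.sub2 hR (Tm.var _) (Tm.var _)) p'
  refine ⟨r, fun z => ?_⟩
  rw [hr]
  refine ⟨fun h => h.2, fun h => ⟨?_, h⟩⟩
  obtain ⟨x, y, hx, hy, hz, -⟩ := h
  rw [hp']
  intro t ht
  rw [hp]
  intro s hs
  rw [hc]
  rcases (hz t).1 ht with h1 | h1
  · rcases (h1 s).1 hs with rfl | rfl
    · exact Or.inl hx
    · exact Or.inl hx
  · rcases (h1 s).1 hs with rfl | rfl
    · exact Or.inl hx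
    · exact Or.inr hy

theorem IsZF.exists_rel' (a b : M) {R : M → M → Prop}
    (hR : Dfn E (fun v : Fin 2 → M => R (v 0) (v 1))) :
    ∃ r, (∀ z, E z r → ∃ x, E x a ∧ ∃ y, E y b ∧ OPair E z x y) ∧
      ∀ x y, App E r x y ↔ E x a ∧ E y b ∧ R x y := by
  obtain ⟨r, hr⟩ := hM.exists_rel a b hR
  refine ⟨r, fun z hz => ?_, fun x y => ⟨?_, ?_⟩⟩
  · obtain ⟨x, y, hx, hy, h, -⟩ := (hr z).1 hz
    exact ⟨x, hx, y, hy, h⟩
  · rintro ⟨z, hz, h⟩
    obtain ⟨x', y', hx, hy, h', h3⟩ := (hr z).1 hz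
    obtain ⟨rfl, rfl⟩ := hM.opair_inj h h'
    exact ⟨hx, hy, h3⟩
  · rintro ⟨hx, hy, h⟩
    obtain ⟨z, hz⟩ := hM.exists_opair x y
    exact ⟨z, (hr z).2 ⟨x, y, hx, hy, hz, h⟩, hz⟩

/-- A definable function. -/
theorem IsZF.exists_fun (a b : M) {R : M → M → Prop}
    (hR : Dfn E (fun v : Fin 2 → M => R (v 0) (v 1))) (htot : ∀ x, E x a → ∃ y, E y b ∧ R x y)
    (huniq : ∀ x, E x a → ∀ y y', E y b → E y' b → R x y → R x y' → y = y') :
    ∃ f, Fun E f a b ∧ ∀ x y, App E f x y ↔ E x a ∧ E y b ∧ R x y := by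
  obtain ⟨f, hf, hf'⟩ := hM.exists_rel' a b hR
  refine ⟨f, ⟨hf, fun x hx => ?_, fun x y y' h h' => ?_⟩, hf'⟩
  · obtain ⟨y, hy, h⟩ := htot x hx
    exact ⟨y, hy, (hf' x y).2 ⟨hx, hy, h⟩⟩
  · obtain ⟨h1, h2, h3⟩ := (hf' x y).1 h
    obtain ⟨-, h4, h5⟩ := (hf' x y').1 h'
    exact huniq x h1 y y' h2 h4 h3 h5

theorem Sem.Fun.dom {f a b x y : M} (hf : Fun E f a b) (h : App E f x y) : E x a ∧ E y b := by
  obtain ⟨z, hz, h1⟩ := h
  obtain ⟨x', hx', y', hy', h2⟩ := hf.1 z hz
  obtain ⟨rfl, rfl⟩ := hM.opair_inj h1 h2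
  exact ⟨hx', hy'⟩

end Inner

end Pool.Agent.helper57.Fc
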