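import Mathlib
import Pool.Agent.helper57.Fc.SetFm

set_option autoImplicit false

/-!
# Forcing notions of set theory
-/

open FirstOrder FirstOrder.Language Cardinal

namespace Pool.Agent.helper57.Fc

section Basic

variable {P : Type} [Preorder P] {p : P} {n : ℕ} {xs : Fin n → Name P}

theorem Fo.mono {φ : Fm n} {q : P} (hq : q ≤ p) (h : Fo φ xs p) : Fo φ xs q :=
  (Forces.reg _ φ xs).mono hq h

theorem Fo.dense {φ : Fm n} (h : ∀ q ≤ p, ∃ r ≤ q, Fo φ xs r) : Fo φ xs p :=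
  (Forces.reg _ φ xs).dense h

theorem fo_mem {i j : Fin n} : Fo (fMem i j) xs p ↔ ForcesMem (xs i) (xs j) p := Iff.rfl

theorem fo_eq {i j : Fin n} : Fo (fEq i j) xs p ↔ ForcesEq (xs i) (xs j) p := Iff.rfl

theorem fo_imp {φ ψ : Fm n} : Fo (φ ⟹ ψ) xs p ↔ ∀ q ≤ p, Fo φ xs q → Fo ψ xs q := Iff.rfl

theorem fo_not {φ : Fm n} : Fo (∼φ) xs p ↔ ∀ q ≤ p, ¬ Fo φ xs q := Iff.rfl

theorem fo_and {φ ψ : Fm n} : Fo (φ ⊓ ψ) xs p ↔ Fo φ xs p ∧ Fo ψ xs p := forces_and

theorem fo_or {φ ψ : Fm n} : Fo (φ ⊔ ψ) xs p ↔ ∀ q ≤ p, ∃ r ≤ q, Fo φ xs r ∨ Fo ψ xs r :=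
  forces_or

theorem fo_iff {φ ψ : Fm n} : Fo (φ ⇔ ψ) xs p ↔ ∀ q ≤ p, (Fo φ xs q ↔ Fo ψ xs q) := forces_iff

theorem fo_sn_congr {φ : Fm (n + 1)} {x y : Name P} (h : ForcesEq x y p) :
    Fo φ (sn xs x) p ↔ Fo φ (sn xs y) p := forces_sn_congr h

theorem fo_ball {j : Fin n} {φ : Fm (n + 1)} :
    Fo (fBall j φ) xs p ↔ ∀ x, ∀ q ≤ p, ForcesMem x (xs j) q → Fo φ (sn xs x) q := by
  unfold fBall
  rw [fo_all]
  refine forall_congr' fun x => ?_
  rw [fo_imp]
  refine forall_congr' fun q => forall_congr' fun _ => ?_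
  rw [fo_mem, sn_up, sn_nw]

theorem fo_bex {j : Fin n} {φ : Fm (n + 1)} :
    Fo (fBex j φ) xs p ↔
      ∀ q ≤ p, ∃ r ≤ q, ∃ x, ForcesMem x (xs j) r ∧ Fo φ (sn xs x) r := by
  unfold fBex
  rw [fo_ex]
  refine forall_congr' fun q => forall_congr' fun _ => exists_congr fun r =>
    and_congr_right fun _ => exists_congr fun x => ?_
  rw [fo_and, fo_mem, sn_up, sn_nw]

theorem fo_bex_of {j : Fin n} {φ : Fm (n + 1)} (x : Name P) (hx : ForcesMem x (xs j) p)
    (h : Fo φ (sn xs x) p) : Fo (fBex j φ) xs p :=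
  fo_bex.2 fun q hq => ⟨q, le_rfl, x, hx.mono hq, h.mono hq⟩

end Basic

section Ck

variable {P : Type} [Preorder P] [OrderTop P] {p : P} {n : ℕ} {xs : Fin n → Name P}

theorem fo_ball_ck {ι : Type} {x : ι → Name P} {j : Fin n} (hj : xs j = ck x)
    {φ : Fm (n + 1)} : Fo (fBall j φ) xs p ↔ ∀ i, Fo φ (sn xs (x i)) p := by
  rw [fo_ball, hj]
  constructor
  · intro h i
    exact h (x i) p le_rfl (mem_ck_self x i p)
  · intro h z q hq hz
    refine Fo.dense fun r hr => ?_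
    obtain ⟨s, hs, i, h1⟩ := mem_ck.1 hz r hr
    exact ⟨s, hs, (fo_sn_congr h1).2 (Fo.mono ((hs.trans hr).trans hq) (h i))⟩

theorem fo_bex_ck {ι : Type} {x : ι → Name P} {j : Fin n} (hj : xs j = ck x)
    {φ : Fm (n + 1)} : Fo (fBex j φ) xs p ↔
      ∀ q ≤ p, ∃ r ≤ q, ∃ i, Fo φ (sn xs (x i)) r := by
  rw [fo_bex, hj]
  constructor
  · intro h q hq
    obtain ⟨r, hr, z, hz, h1⟩ := h q hq
    obtain ⟨s, hs, i, h2⟩ := mem_ck.1 hz r le_rfl
    exact ⟨s, hs.trans hr, i, (fo_sn_congr h2).1 (Fo.mono hs h1)⟩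
  · intro h q hq
    obtain ⟨r, hr, i, h1⟩ := h q hq
    exact ⟨r, hr, x i, mem_ck_self x i r, h1⟩

theorem fo_ball_oN {o : Ordinal.{0}} {j : Fin n} (hj : xs j = oN P o)
    {φ : Fm (n + 1)} : Fo (fBall j φ) xs p ↔ ∀ i < o, Fo φ (sn xs (oN P i)) p := by
  rw [oN_def] at hj
  rw [fo_ball_ck hj]
  constructor
  · intro h i hi
    have := h (Ordinal.ToType.mk ⟨i, hi⟩)
    rw [Ordinal.ToType.toOrd, OrderIso.symm_apply_apply] at this
    exact this
  · intro h i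
    exact h _ (Ordinal.ToType.toOrd i).2

theorem fo_bex_oN {o : Ordinal.{0}} {j : Fin n} (hj : xs j = oN P o)
    {φ : Fm (n + 1)} : Fo (fBex j φ) xs p ↔
      ∀ q ≤ p, ∃ r ≤ q, ∃ i < o, Fo φ (sn xs (oN P i)) r := by
  rw [oN_def] at hj
  rw [fo_bex_ck hj]
  refine forall_congr' fun q => forall_congr' fun _ => exists_congr fun r =>
    and_congr_right fun _ => ?_
  constructor
  · rintro ⟨i, hi⟩
    exact ⟨_, (Ordinal.ToType.toOrd i).2, hi⟩
  · rintro ⟨i, h1, h2⟩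
    refine ⟨Ordinal.ToType.mk ⟨i, h1⟩, ?_⟩
    rw [Ordinal.ToType.toOrd, OrderIso.symm_apply_apply]
    exact h2

/-! ### Functions -/

/-- `p` forces that `f` is a function from `a` to `b`. -/
structure FFun (f a b : Name P) (p : P) : Prop where
  graph : ∀ z, ∀ q ≤ p, ForcesMem z f q → ∀ r ≤ q, ∃ s ≤ r, ∃ x y, ForcesMem x a s ∧
    ForcesMem y b s ∧ ForcesEq z (opN x y) s
  total : ∀ x, ∀ q ≤ p, ForcesMem x a q → ∀ r ≤ q, ∃ s ≤ r, ∃ y, ForcesMem y b s ∧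
    ForcesMem (opN x y) f s
  func : ∀ x y y', ∀ q ≤ p, ForcesMem (opN x y) f q → ForcesMem (opN x y') f q →
    ForcesEq y y' q

theorem fo_fun {f a b : Fin n} : Fo (fFun f a b) xs p ↔ FFun (xs f) (xs a) (xs b) p := by
  unfold fFun
  rw [fo_and, fo_and, fo_ball, fo_ball]
  simp only [fo_bex, fo_all, fo_imp, fo_app, fo_opair, fo_eq, sn_up, sn_nw]
  constructor
  · rintro ⟨h1, h2, h3⟩
    refine ⟨fun z q hq hz r hr => ?_, fun x q hq hx r hr => ?_, fun x y y' q hq h4 h5 => ?_⟩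
    · obtain ⟨s, hs, x, hx, h4⟩ := h1 z q hq hz r hr
      obtain ⟨t, ht, y, hy, h5⟩ := h4 s le_rfl
      exact ⟨t, ht.trans hs, x, y, hx.mono ht, hy, h5⟩
    · obtain ⟨s, hs, y, hy, h4⟩ := h2 x q hq hx r hr
      exact ⟨s, hs, y, hy, h4⟩
    · exact h3 x y y' q hq h4 q le_rfl h5
  · rintro ⟨h1, h2, h3⟩
    refine ⟨fun z q hq hz r hr => ?_, fun x q hq hx r hr => ?_, fun x y y' q hq h4 r hr h5 => ?_⟩
    · obtain ⟨s, hs, x, y, hx, hy, h4⟩ := h1 z q hq hz r hr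
      exact ⟨s, hs, x, hx, fun t ht => ⟨t, le_rfl, y, hy.mono ht, h4.mono ht⟩⟩
    · obtain ⟨s, hs, y, hy, h4⟩ := h2 x q hq hx r hr
      exact ⟨s, hs, y, hy, h4⟩
    · exact h3 x y y' r (hr.trans hq) (h4.mono hr) h5

theorem fo_inj {f : Fin n} : Fo (fInj f) xs p ↔ ∀ x x' y, ∀ q ≤ p,
    ForcesMem (opN x y) (xs f) q → ForcesMem (opN x' y) (xs f) q → ForcesEq x x' q := by
  unfold fInj
  simp only [fo_all, fo_imp, fo_app, fo_eq, sn_up, sn_nw]
  constructor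
  · exact fun h x x' y q hq h1 h2 => h x x' y q hq h1 q le_rfl h2
  · exact fun h x x' y q hq h1 r hr h2 => h x x' y r (hr.trans hq) (h1.mono hr) h2

theorem fo_surj {f a b : Fin n} : Fo (fSurj f a b) xs p ↔ ∀ y, ∀ q ≤ p, ForcesMem y (xs b) q →
    ∀ r ≤ q, ∃ s ≤ r, ∃ x, ForcesMem x (xs a) s ∧ ForcesMem (opN x y) (xs f) s := by
  unfold fSurj
  rw [fo_ball]
  simp only [fo_bex, fo_app, sn_up, sn_nw]

/-- The graph of the function `x i ↦ y i`. -/
def grN {ι : Type} (x y : ι → Name P) : Name P := ck (fun i => opN (x i) (y i))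

theorem mem_grN {ι : Type} {x y : ι → Name P} {u v : Name P} :
    ForcesMem (opN u v) (grN x y) p ↔
      ∀ q ≤ p, ∃ r ≤ q, ∃ i, ForcesEq u (x i) r ∧ ForcesEq v (y i) r := by
  unfold grN
  rw [mem_ck]
  simp only [opN_inj]

theorem mem_grN_self {ι : Type} (x y : ι → Name P) (i : ι) (p : P) :
    ForcesMem (opN (x i) (y i)) (grN x y) p :=
  mem_grN.2 fun q _ => ⟨q, le_rfl, i, ForcesEq.refl _ _, ForcesEq.refl _ _⟩

theorem ffun_grN {ι : Type} {x y : ι → Name P} {b : Name P} (hy : ∀ i q, ForcesMem (y i) b q)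
    (hxy : ∀ i j q, ForcesEq (x i) (x j) q → ForcesEq (y i) (y j) q) :
    FFun (grN x y) (ck x) b p := by
  refine ⟨fun z q _ hz r hr => ?_, fun u q _ hu r hr => ?_, fun u v v' q _ h1 h2 => ?_⟩
  · obtain ⟨s, hs, i, hi⟩ := mem_ck.1 hz r hr
    exact ⟨s, hs, x i, y i, mem_ck_self x i s, hy i s, hi⟩
  · obtain ⟨s, hs, i, hi⟩ := mem_ck.1 hu r hr
    refine ⟨s, hs, y i, hy i s, ?_⟩
    exact (mem_grN_self x y i s).congr_left (opN_congr hi.symm (ForcesEq.refl _ _))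
  · refine (ForcesEq.reg _ _).dense fun r hr => ?_
    obtain ⟨s, hs, i, h3, h4⟩ := mem_grN.1 h1 r hr
    obtain ⟨t, ht, j, h5, h6⟩ := mem_grN.1 h2 s (hs.trans hr)
    refine ⟨t, ht.trans hs, (h4.mono ht).trans ((hxy i j t ?_).trans h6.symm)⟩
    exact (h3.mono ht).symm.trans h5

theorem inj_grN {ι : Type} {x y : ι → Name P}
    (hyx : ∀ i j q, ForcesEq (y i) (y j) q → ForcesEq (x i) (x j) q) :
    ∀ u u' v, ∀ q ≤ p, ForcesMem (opN u v) (grN x y) q → ForcesMem (opN u' v) (grN x y) q →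
      ForcesEq u u' q := by
  intro u u' v q _ h1 h2
  refine (ForcesEq.reg _ _).dense fun r hr => ?_
  obtain ⟨s, hs, i, h3, h4⟩ := mem_grN.1 h1 r hr
  obtain ⟨t, ht, j, h5, h6⟩ := mem_grN.1 h2 s (hs.trans hr)
  refine ⟨t, ht.trans hs, (h3.mono ht).trans ((hyx i j t ?_).trans h5.symm)⟩
  exact (h4.mono ht).symm.trans h6

theorem surj_grN {ι κ : Type} {x y : ι → Name P} {z : κ → Name P}
    (h : ∀ k, ∃ i, ∀ q, ForcesEq (z k) (y i) q) :
    ∀ v, ∀ q ≤ p, ForcesMem v (ck z) q → ∀ r ≤ q, ∃ s ≤ r, ∃ u, ForcesMem u (ck x) s ∧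
      ForcesMem (opN u v) (grN x y) s := by
  intro v q _ hv r hr
  obtain ⟨s, hs, k, hk⟩ := mem_ck.1 hv r hr
  obtain ⟨i, hi⟩ := h k
  refine ⟨s, hs, x i, mem_ck_self x i s, ?_⟩
  exact (mem_grN_self x y i s).congr_left (opN_congr (ForcesEq.refl _ _) (hk.trans (hi s)).symm)

/-- The ordinal of an element of `o.ToType`. -/
noncomputable def ord {o : Ordinal.{0}} (i : o.ToType) : Ordinal.{0} := (Ordinal.ToType.toOrd i).1

theorem ord_lt {o : Ordinal.{0}} (i : o.ToType) : ord i < o := (Ordinal.ToType.toOrd i).2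

theorem ord_inj {o : Ordinal.{0}} {i j : o.ToType} : ord i = ord j ↔ i = j := by
  unfold ord
  rw [← Subtype.ext_iff]
  exact (Ordinal.ToType.mk.symm).injective.eq_iff

theorem ord_lt_ord {o : Ordinal.{0}} {i j : o.ToType} : ord i < ord j ↔ i < j := by
  unfold ord
  exact (Ordinal.ToType.mk.symm).lt_iff_lt

theorem exists_ord {o : Ordinal.{0}} {b : Ordinal.{0}} (hb : b < o) :
    ∃ i : o.ToType, ord i = b := by
  refine ⟨Ordinal.ToType.mk ⟨b, hb⟩, ?_⟩
  unfold ord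
  rw [Ordinal.ToType.toOrd, OrderIso.symm_apply_apply]

theorem oN_def' (o : Ordinal.{0}) : oN P o = ck (fun i : o.ToType => oN P (ord i)) := oN_def o

theorem ord_mem {o : Ordinal.{0}} (i : o.ToType) (p : P) : ForcesMem (oN P (ord i)) (oN P o) p :=
  oN_mem_oN_of_lt (ord_lt i) p

/-- The values of a function between ordinals can be decided, one at a time. -/
theorem FFun.decide {f : Name P} {α β : Ordinal.{0}} (h : FFun f (oN P α) (oN P β) p)
    (i : α.ToType) {q : P} (hq : q ≤ p) :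
    ∃ r ≤ q, ∃ j : β.ToType, ForcesMem (opN (oN P (ord i)) (oN P (ord j))) f r := by
  obtain ⟨s, hs, y, hy, h1⟩ := h.total _ q hq (ord_mem i q) q le_rfl
  rw [oN_def'] at hy
  obtain ⟨r, hr, j, hj⟩ := mem_ck.1 hy s le_rfl
  exact ⟨r, hr.trans hs, j, (h1.mono hr).congr_left (opN_congr (ForcesEq.refl _ _) hj)⟩

theorem FFun.mono {f a b : Name P} {q : P} (h : FFun f a b p) (hq : q ≤ p) : FFun f a b q :=
  ⟨fun z r hr => h.graph z r (hr.trans hq), fun x r hr => h.total x r (hr.trans hq),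
    fun x y y' r hr => h.func x y y' r (hr.trans hq)⟩

theorem FFun.congr {f f' a b : Name P} (h : ForcesEq f f' p) (hf : FFun f a b p) :
    FFun f' a b p := by
  have h1 : Fo (fFun (0 : Fin 3) 1 2) ![f, a, b] p := fo_fun.2 hf
  have h2 : Fo (fFun (0 : Fin 3) 1 2) ![f', a, b] p := by
    refine (Forces.congr _ fun i => ?_).1 h1
    fin_cases i
    · exact h
    · exact ForcesEq.refl _ _
    · exact ForcesEq.refl _ _
  exact fo_fun.1 h2

theorem FFun.dense {f a b : Name P} (h : ∀ q ≤ p, ∃ r ≤ q, FFun f a b r) : FFun f a b p := by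
  have h1 : Fo (fFun (0 : Fin 3) 1 2) ![f, a, b] p := Fo.dense fun q hq => by
    obtain ⟨r, hr, h2⟩ := h q hq
    exact ⟨r, hr, fo_fun.2 h2⟩
  exact fo_fun.1 h1

/-- The name of a function between ordinals of the ground model. -/
noncomputable def fnN (P : Type) [Preorder P] [OrderTop P] {α β : Ordinal.{0}}
    (g : α.ToType → β.ToType) : Name P :=
  grN (fun i => oN P (ord i)) (fun i => oN P (ord (g i)))

theorem mem_fnN_self {α β : Ordinal.{0}} (g : α.ToType → β.ToType) (i : α.ToType) (q : P) :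
    ForcesMem (opN (oN P (ord i)) (oN P (ord (g i)))) (fnN P g) q :=
  mem_grN_self (fun i => oN P (ord i)) (fun i => oN P (ord (g i))) i q

theorem FFun.eq_fnN {f : Name P} {α β : Ordinal.{0}} (h : FFun f (oN P α) (oN P β) p)
    {g : α.ToType → β.ToType} (hg : ∀ i, ForcesMem (opN (oN P (ord i)) (oN P (ord (g i)))) f p) :
    ForcesEq f (fnN P g) p := by
  refine ForcesEq.ext (fun z q hq hz => ?_) (fun z q hq hz => ?_)
  · refine (ForcesMem.reg _ _).dense fun r hr => ?_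
    obtain ⟨s, hs, x, y, hx, hy, h1⟩ := h.graph z q hq hz r hr
    rw [oN_def'] at hx
    obtain ⟨t, ht, i, hi⟩ := mem_ck.1 hx s le_rfl
    refine ⟨t, ht.trans hs, ?_⟩
    have htp : t ≤ p := ((ht.trans hs).trans hr).trans hq
    have h2 : ForcesMem (opN (oN P (ord i)) y) f t :=
      ((hz.mono ((ht.trans hs).trans hr)).congr_left (h1.mono ht)).congr_left
        (opN_congr hi (ForcesEq.refl _ _))
    have h3 := h.func _ _ _ t htp h2 ((hg i).mono htp)
    exact (mem_grN_self _ _ i t).congr_left (((h1.mono ht).trans (opN_congr hi h3)).symm)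
  · refine (ForcesMem.reg _ _).dense fun r hr => ?_
    obtain ⟨s, hs, i, hi⟩ := mem_ck.1 hz r hr
    exact ⟨s, hs, ((hg i).mono ((hs.trans hr).trans hq)).congr_left hi.symm⟩

theorem ffun_fnN {α β : Ordinal.{0}} (g : α.ToType → β.ToType) :
    FFun (fnN P g) (oN P α) (oN P β) p := by
  have := ffun_grN (p := p) (x := fun i : α.ToType => oN P (ord i))
    (y := fun i => oN P (ord (g i))) (b := oN P β) (fun i q => ord_mem _ q) (by
      intro i j q h
      rw [oN_eq_oN, ord_inj] at h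
      rw [h]
      exact ForcesEq.refl _ _)
  rw [← oN_def'] at this
  exact this

end Ck

/-- The intersection of at most `ν` open dense sets is dense. -/
def Dist (P : Type) [Preorder P] (ν : Cardinal.{0}) : Prop :=
  ∀ {I : Type}, #I ≤ ν → ∀ D : I → P → Prop, (∀ i p q, q ≤ p → D i p → D i q) →
    (∀ i p, ∃ q ≤ p, D i q) → ∀ p, ∃ q ≤ p, ∀ i, D i q

section Dist

variable {P : Type} [Preorder P] [OrderTop P] {p : P} {ν : Cardinal.{0}}

omit [OrderTop P] in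
/-- Distributivity below a condition. -/
theorem Dist.below (hd : Dist P ν) {I : Type} (hI : #I ≤ ν) (D : I → P → Prop)
    (hopen : ∀ i p q, q ≤ p → D i p → D i q) (hdense : ∀ i, ∀ q ≤ p, ∃ r ≤ q, D i r) :
    ∃ q ≤ p, ∀ i, D i q := by
  obtain ⟨q, hq, h⟩ := hd hI (fun i r => D i r ∨ ∀ s ≤ r, ¬ s ≤ p)
    (fun i r s hs h => h.imp (hopen i r s hs) (fun h t ht => h t (ht.trans hs)))
    (fun i r => by
      by_cases h : ∃ s ≤ r, s ≤ p
      · obtain ⟨s, hs, hsp⟩ := h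
        obtain ⟨t, ht, h1⟩ := hdense i s hsp
        exact ⟨t, ht.trans hs, Or.inl h1⟩
      · push Not at h
        exact ⟨r, le_rfl, Or.inr h⟩) p
  exact ⟨q, hq, fun i => (h i).resolve_right fun h1 => h1 q le_rfl hq⟩

/-- Under distributivity, functions between ordinals are (densely) in the ground model. -/
theorem FFun.ground (hd : Dist P ν) {f : Name P} {α β : Ordinal.{0}} (hα : α.card ≤ ν)
    (h : FFun f (oN P α) (oN P β) p) :
    ∃ q ≤ p, ∃ g : α.ToType → β.ToType,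
      ∀ i, ForcesMem (opN (oN P (ord i)) (oN P (ord (g i)))) f q := by
  obtain ⟨q, hq, h1⟩ := hd.below (p := p) (I := α.ToType) (by rw [Cardinal.mk_toType]; exact hα)
    (fun i r => ∃ j : β.ToType, ForcesMem (opN (oN P (ord i)) (oN P (ord j))) f r)
    (fun i r s hs ⟨j, hj⟩ => ⟨j, hj.mono hs⟩) (fun i q hq => h.decide i hq)
  choose g hg using h1
  exact ⟨q, hq, g, hg⟩

end Dist

end Pool.Agent.helper57.Fc
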