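import Mathlib
import Pool.Agent.helper57.Fc.FoFm

set_option autoImplicit false

/-!
# Forcing and cardinals
-/

open FirstOrder FirstOrder.Language Cardinal

namespace Pool.Agent.helper57.Fc

variable {P : Type} [Preorder P] [OrderTop P] {p : P} {n : ℕ} {xs : Fin n → Name P}

/-- Surjectivity of a forced function. -/
def FSurj (f a b : Name P) (p : P) : Prop :=
  ∀ y, ∀ q ≤ p, ForcesMem y b q →
    ∀ r ≤ q, ∃ s ≤ r, ∃ x, ForcesMem x a s ∧ ForcesMem (opN x y) f s

/-- Injectivity of a forced function. -/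
def FInj (f : Name P) (p : P) : Prop :=
  ∀ x x' y, ∀ q ≤ p, ForcesMem (opN x y) f q → ForcesMem (opN x' y) f q → ForcesEq x x' q

theorem FSurj.mono {f a b : Name P} {q : P} (h : FSurj f a b p) (hq : q ≤ p) : FSurj f a b q :=
  fun y r hr => h y r (hr.trans hq)

theorem FInj.mono {f : Name P} {q : P} (h : FInj f p) (hq : q ≤ p) : FInj f q :=
  fun x x' y r hr => h x x' y r (hr.trans hq)

theorem fo_equip {a b : Fin n} : Fo (fEquip a b) xs p ↔ ∀ q ≤ p, ∃ r ≤ q, ∃ f,
    FFun f (xs a) (xs b) r ∧ FInj f r ∧ FSurj f (xs a) (xs b) r := by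
  unfold fEquip
  rw [fo_ex]
  simp only [fo_and, fo_fun, fo_inj, fo_surj, sn_up, sn_nw]
  exact Iff.rfl

theorem fo_equip_of {a b : Fin n} (f : Name P) (h1 : FFun f (xs a) (xs b) p) (h2 : FInj f p)
    (h3 : FSurj f (xs a) (xs b) p) : Fo (fEquip a b) xs p :=
  fo_equip.2 fun q hq => ⟨q, le_rfl, f, h1.mono hq, h2.mono hq, h3.mono hq⟩

/-! ### Ordinals -/

theorem fo_trans_oN {x : Fin n} {o : Ordinal.{0}} (hx : xs x = oN P o) : Fo (fTrans x) xs p := by
  unfold fTrans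
  rw [fo_ball_oN hx]
  intro i hi
  rw [fo_ball_oN (o := i) (by rw [sn_nw])]
  intro j hj
  rw [fo_mem]
  simp only [sn_up, sn_nw]
  rw [hx, oN_mem_oN]
  exact hj.trans hi

theorem fo_ord_oN {x : Fin n} {o : Ordinal.{0}} (hx : xs x = oN P o) : Fo (fOrd x) xs p := by
  unfold fOrd
  rw [fo_and]
  refine ⟨fo_trans_oN hx, ?_⟩
  rw [fo_ball_oN hx]
  intro i _
  exact fo_trans_oN (o := i) (by rw [sn_nw])

theorem fo_lim_oN {x : Fin n} {o : Ordinal.{0}} (hx : xs x = oN P o)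
    (ho : Order.IsSuccLimit o) : Fo (fLim x) xs p := by
  unfold fLim
  rw [fo_and]
  have h0 : 0 < o := by
    rw [pos_iff_ne_zero]
    rintro rfl
    exact ho.1 isMin_bot
  constructor
  · refine fo_ex_of (oN P 0) ?_
    rw [fo_mem, sn_nw, sn_up, hx, oN_mem_oN]
    exact h0
  · rw [fo_ball_oN hx]
    intro i hi
    have hx' : sn xs (oN P i) (up x) = oN P o := by rw [sn_up, hx]
    refine (fo_bex_oN hx').2 fun q _ => ⟨q, le_rfl, Order.succ i, ho.succ_lt hi, ?_⟩
    rw [fo_mem]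
    simp only [sn_up, sn_nw]
    rw [oN_mem_oN]
    exact Order.lt_succ i

theorem fo_gtOmega_oN {x : Fin n} {o : Ordinal.{0}} (hx : xs x = oN P o)
    (ho : Ordinal.omega0 < o) : Fo (fGtOmega x) xs p := by
  unfold fGtOmega
  refine fo_bex_of (oN P Ordinal.omega0) (by rw [hx, oN_mem_oN]; exact ho) ?_
  exact fo_lim_oN (by rw [sn_nw]) Ordinal.isSuccLimit_omega0

/-! ### Cardinals -/

/-- There is no forced function from `α` onto `β`. -/
def NoSurj (P : Type) [Preorder P] [OrderTop P] (α β : Ordinal.{0}) : Prop :=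
  ∀ (p : P) (f : Name P), FFun f (oN P α) (oN P β) p → FSurj f (oN P α) (oN P β) p → False

theorem fo_card_oN {x : Fin n} {o : Ordinal.{0}} (hx : xs x = oN P o)
    (h : ∀ b < o, NoSurj P b o) : Fo (fCard x) xs p := by
  unfold fCard
  rw [fo_and]
  refine ⟨fo_ord_oN hx, ?_⟩
  rw [fo_ball_oN hx]
  intro b hb
  rw [fo_not]
  intro q _ h1
  rw [fo_equip] at h1
  simp only [sn_up, sn_nw] at h1
  rw [hx] at h1
  obtain ⟨r, _, f, h2, -, h3⟩ := h1 q le_rfl
  exact h b hb r f h2 h3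

/-- The values of a forced surjective function between ordinals. -/
theorem FSurj.exists_val {f : Name P} {α β : Ordinal.{0}} (h : FSurj f (oN P α) (oN P β) p)
    (j : β.ToType) : ∃ q ≤ p, ∃ i : α.ToType,
      ForcesMem (opN (oN P (ord i)) (oN P (ord j))) f q := by
  obtain ⟨s, hs, x, hx, h1⟩ := h _ p le_rfl (ord_mem j p) p le_rfl
  rw [oN_def'] at hx
  obtain ⟨t, ht, i, hi⟩ := mem_ck.1 hx s le_rfl
  exact ⟨t, ht.trans hs, i, (h1.mono ht).congr_left (opN_congr hi (ForcesEq.refl _ _))⟩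

/-- Cardinals up to `ν` are preserved. -/
theorem noSurj_of_dist {ν : Cardinal.{0}} (hd : Dist P ν) {α : Ordinal.{0}} {c : Cardinal.{0}}
    (hc : c ≤ ν) (hα : α < c.ord) : NoSurj P α c.ord := by
  intro p f hf hs
  have hαc : α.card < c := Cardinal.lt_ord.1 hα
  obtain ⟨q, hq, g, hg⟩ := hf.ground hd (hαc.le.trans hc)
  have hns : ¬ Function.Surjective g := by
    intro h
    have h1 := Cardinal.mk_le_of_surjective h
    rw [Cardinal.mk_ord_toType, Cardinal.mk_toType] at h1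
    exact absurd h1 (not_le.2 hαc)
  unfold Function.Surjective at hns
  push Not at hns
  obtain ⟨j, hj⟩ := hns
  obtain ⟨r, hr, i, hi⟩ := (hs.mono hq).exists_val j
  have h1 := hf.func _ _ _ r (hr.trans hq) hi ((hg i).mono hr)
  rw [oN_eq_oN, ord_inj] at h1
  exact hj i h1.symm

/-- Every antichain has size at most `τ`. -/
def CC (P : Type) [Preorder P] (τ : Cardinal.{0}) : Prop :=
  ∀ {Y : Type}, τ < #Y → ∀ q : Y → P, ∃ y y', y ≠ y' ∧ ∃ r, r ≤ q y ∧ r ≤ q y'

/-- Under the chain condition, there are few possible values. -/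
theorem CC.card_val {τ : Cardinal.{0}} (hcc : CC P τ) {f : Name P} {α β : Ordinal.{0}}
    (hf : FFun f (oN P α) (oN P β) p) (i : α.ToType) :
    #{j : β.ToType | ∃ q ≤ p, ForcesMem (opN (oN P (ord i)) (oN P (ord j))) f q} ≤ τ := by
  by_contra hcon
  have hch : ∀ j : {j : β.ToType | ∃ q ≤ p, ForcesMem (opN (oN P (ord i)) (oN P (ord j))) f q},
    ∃ q ≤ p, ForcesMem (opN (oN P (ord i)) (oN P (ord j.1))) f q := fun j => j.2
  choose q hq hqf using hch
  obtain ⟨j, j', hne, r, hr, hr'⟩ := hcc (not_le.1 hcon) q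
  have h1 := hf.func _ _ _ r (hr.trans (hq j)) ((hqf j).mono hr) ((hqf j').mono hr')
  rw [oN_eq_oN, ord_inj] at h1
  exact hne (Subtype.ext h1)

/-- Cardinals above `τ` are preserved. -/
theorem noSurj_of_cc {τ : Cardinal.{0}} (hcc : CC P τ) {α : Ordinal.{0}} {c : Cardinal.{0}}
    (hτ : τ < c) (hω : ℵ₀ ≤ c) (hα : α < c.ord) : NoSurj P α c.ord := by
  intro p f hf hs
  have hαc : α.card < c := Cardinal.lt_ord.1 hα
  have hcov : (Set.univ : Set c.ord.ToType) ⊆ ⋃ i : α.ToType,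
      {j : c.ord.ToType | ∃ q ≤ p, ForcesMem (opN (oN P (ord i)) (oN P (ord j))) f q} := by
    intro j _
    obtain ⟨q, hq, i, hi⟩ := hs.exists_val j
    exact Set.mem_iUnion.2 ⟨i, q, hq, hi⟩
  have h1 := (Cardinal.mk_le_mk_of_subset hcov).trans (Cardinal.mk_iUnion_le _)
  rw [Cardinal.mk_univ, Cardinal.mk_ord_toType, Cardinal.mk_toType] at h1
  have h2 : (⨆ i : α.ToType, #{j : c.ord.ToType | ∃ q ≤ p,
      ForcesMem (opN (oN P (ord i)) (oN P (ord j))) f q}) ≤ τ :=
    ciSup_le' fun i => hcc.card_val hf i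
  have h3 : α.card * τ < c := Cardinal.mul_lt_of_lt hω hαc hτ
  exact absurd (h1.trans (mul_le_mul' le_rfl h2)) (not_le.2 h3)

/-! ### Cofinality -/

theorem fo_cofin {m k : Fin n} : Fo (fCofin m k) xs p ↔ ∀ q ≤ p, ∃ r ≤ q, ∃ f,
    FFun f (xs m) (xs k) r ∧ ∀ g, ∀ s ≤ r, ForcesMem g (xs k) s → ∀ t ≤ s, ∃ t' ≤ t, ∃ x d,
      ForcesMem x (xs m) t' ∧ ForcesMem (opN x d) f t' ∧ (ForcesMem g d t' ∨ ForcesEq g d t') := by
  unfold fCofin
  rw [fo_ex]
  refine forall_congr' fun q => forall_congr' fun _ => exists_congr fun r =>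
    and_congr_right fun _ => exists_congr fun f => ?_
  rw [fo_and, fo_fun, fo_ball]
  simp only [fo_bex, fo_ex, fo_and, fo_or, fo_app, fo_mem, fo_eq, sn_up, sn_nw]
  refine and_congr_right fun _ => forall_congr' fun g => forall_congr' fun s =>
    forall_congr' fun _ => imp_congr_right fun _ => ?_
  constructor
  · intro h t ht
    obtain ⟨t1, ht1, x, hx, h1⟩ := h t ht
    obtain ⟨t2, ht2, d, h2, h3⟩ := h1 t1 le_rfl
    obtain ⟨t3, ht3, h4⟩ := h3 t2 le_rfl
    exact ⟨t3, (ht3.trans ht2).trans ht1, x, d, hx.mono (ht3.trans ht2), h2.mono ht3, h4⟩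
  · intro h t ht
    obtain ⟨t1, ht1, x, d, h1, h2, h3⟩ := h t ht
    refine ⟨t1, ht1, x, h1, fun t2 ht2 => ⟨t2, le_rfl, d, h2.mono ht2, fun t3 ht3 =>
      ⟨t3, le_rfl, h3.imp (fun h => ?_) (fun h => ?_)⟩⟩⟩
    · exact (h.mono ht2).mono ht3
    · exact (h.mono ht2).mono ht3

/-- Cofinal functions of the ground model. -/
theorem fo_cofin_of {m k : Fin n} {α β : Ordinal.{0}} (hm : xs m = oN P α) (hk : xs k = oN P β)
    (g : α.ToType → β.ToType) (hg : ∀ j, ∃ i, j ≤ g i) : Fo (fCofin m k) xs p := by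
  rw [fo_cofin, hm, hk]
  intro q _
  refine ⟨q, le_rfl, fnN P g, ffun_fnN g, fun z s _ hz t ht => ?_⟩
  rw [oN_def'] at hz
  obtain ⟨t', ht', j, hj⟩ := mem_ck.1 hz t ht
  obtain ⟨i, hi⟩ := hg j
  refine ⟨t', ht', oN P (ord i), oN P (ord (g i)), ord_mem i t', mem_fnN_self g i t', ?_⟩
  rcases hi.lt_or_eq with h | h
  · refine Or.inl (ForcesMem.congr_left ?_ hj.symm)
    rw [oN_mem_oN, ord_lt_ord]
    exact h
  · refine Or.inr ?_
    rw [← h]
    exact hj

/-- There are no new cofinal functions. -/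
theorem fo_not_cofin {ν : Cardinal.{0}} (hd : Dist P ν) {m k : Fin n} {α β : Ordinal.{0}}
    (hm : xs m = oN P α) (hk : xs k = oN P β) (hα : α.card ≤ ν)
    (h : ∀ g : α.ToType → β.ToType, ∃ j, ∀ i, g i < j) : Fo (∼(fCofin m k)) xs p := by
  rw [fo_not]
  intro q _ h1
  rw [fo_cofin, hm, hk] at h1
  obtain ⟨r, _, f, hf, h2⟩ := h1 q le_rfl
  obtain ⟨s, hs, g, hg⟩ := hf.ground hd hα
  obtain ⟨j, hj⟩ := h g
  obtain ⟨t, ht, x, d, hx, hd, h3⟩ := h2 _ s hs (ord_mem j s) s le_rfl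
  rw [oN_def'] at hx
  obtain ⟨t', ht', i, hi⟩ := mem_ck.1 hx t le_rfl
  have hle : t' ≤ r := (ht'.trans ht).trans hs
  have h4 : ForcesMem (opN (oN P (ord i)) d) f t' :=
    (hd.mono ht').congr_left (opN_congr hi (ForcesEq.refl _ _))
  have h5 := hf.func _ _ _ t' hle h4 ((hg i).mono (ht'.trans ht))
  have h6 := h3.imp (ForcesMem.mono ht') (ForcesEq.mono ht')
  rcases h6 with h6 | h6
  · have := h6.congr_right h5
    rw [oN_mem_oN, ord_lt_ord] at this
    exact absurd this (not_lt_of_gt (hj i))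
  · have := h6.trans h5
    rw [oN_eq_oN, ord_inj] at this
    exact absurd (hj i) (by rw [this]; exact lt_irrefl _)

theorem fo_isCof {ν : Cardinal.{0}} (hd : Dist P ν) {k m : Fin n} {α β : Ordinal.{0}}
    (hk : xs k = oN P β) (hm : xs m = oN P α) (hα : α.card ≤ ν)
    (g : α.ToType → β.ToType) (hg : ∀ j, ∃ i, j ≤ g i)
    (h : ∀ γ < α, ∀ g : γ.ToType → β.ToType, ∃ j, ∀ i, g i < j) : Fo (fIsCof k m) xs p := by
  unfold fIsCof
  rw [fo_and, fo_and]
  refine ⟨fo_ord_oN hm, fo_cofin_of hm hk g hg, ?_⟩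
  rw [fo_ball_oN hm]
  intro γ hγ
  refine fo_not_cofin hd (α := γ) (β := β) (by rw [sn_nw]) (by rw [sn_up, hk]) ?_ (h γ hγ)
  exact (Ordinal.card_le_card hγ.le).trans hα

/-! ### Powers -/

theorem fo_powLt {ν : Cardinal.{0}} (hd : Dist P ν) {r l k : Fin n} {ρ lam κ : Ordinal.{0}}
    (hr : xs r = oN P ρ) (hl : xs l = oN P lam) (hk : xs k = oN P κ) (hlam : lam.card ≤ ν)
    {σ : Ordinal.{0}} (hσ : σ < κ) (e : (lam.ToType → ρ.ToType) → σ.ToType)
    (he : Function.Injective e) : Fo (fPowLt r l k) xs p := by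
  unfold fPowLt
  refine fo_bex_of (oN P σ) (by rw [hk, oN_mem_oN]; exact hσ) ?_
  refine fo_ex_of (ck (fun g : lam.ToType → ρ.ToType => fnN P g)) ?_
  rw [fo_and]
  have hfn : ∀ (g g' : lam.ToType → ρ.ToType) (q : P), ForcesEq (fnN P g) (fnN P g') q →
      g = g' := by
    intro g g' q h
    funext i
    have h1 : ForcesMem (opN (oN P (ord i)) (oN P (ord (g i)))) (fnN P g') q :=
      (mem_fnN_self g i q).congr_right h
    have h2 := (ffun_fnN (p := q) g').func _ _ _ q le_rfl h1 (mem_fnN_self g' i q)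
    rw [oN_eq_oN, ord_inj] at h2
    exact h2
  constructor
  · rw [fo_all]
    intro f
    rw [fo_iff]
    intro q _
    rw [fo_mem, fo_fun]
    simp only [sn_up, sn_nw]
    rw [hl, hr]
    constructor
    · intro h
      refine FFun.dense fun q' hq' => ?_
      obtain ⟨s, hs, g, hg⟩ := mem_ck.1 h q' hq'
      exact ⟨s, hs, (ffun_fnN g).congr hg.symm⟩
    · intro h
      refine (ForcesMem.reg _ _).dense fun q' hq' => ?_
      obtain ⟨s, hs, g, hg⟩ := (h.mono hq').ground hd hlam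
      refine ⟨s, hs, ?_⟩
      exact (mem_ck_self _ g s).congr_left ((h.mono (hs.trans hq')).eq_fnN hg).symm
  · refine fo_ex_of (grN (fun g : lam.ToType → ρ.ToType => fnN P g)
      (fun g => oN P (ord (e g)))) ?_
    rw [fo_and, fo_fun, fo_inj]
    simp only [sn_up, sn_nw]
    constructor
    · refine ffun_grN (fun g q => ord_mem _ q) fun g g' q h => ?_
      rw [hfn g g' q h]
      exact ForcesEq.refl _ _
    · refine inj_grN fun g g' q h => ?_
      rw [oN_eq_oN, ord_inj] at h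
      rw [he h]
      exact ForcesEq.refl _ _

/-! ### Arrow relations -/

/-- The name for a set of ordinals of the ground model. -/
noncomputable def setN (P : Type) [Preorder P] [OrderTop P] {α : Ordinal.{0}}
    (H : Set α.ToType) : Name P := ck (fun h : H => oN P (ord h.1))

theorem fo_equip_setN {m h : Fin n} {α β : Ordinal.{0}} {H : Set β.ToType}
    (hm : xs m = oN P α) (hh : xs h = setN P H) (e : α.ToType ≃ H) : Fo (fEquip m h) xs p := by
  refine fo_equip_of (grN (fun i : α.ToType => oN P (ord i)) (fun i => oN P (ord (e i).1))) ?_ ?_ ?_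
  · rw [hm, hh, oN_def' α]
    refine ffun_grN (fun i q => mem_ck_self (fun h : H => oN P (ord h.1)) (e i) q)
      fun i j q h => ?_
    rw [oN_eq_oN, ord_inj] at h
    rw [h]
    exact ForcesEq.refl _ _
  · refine inj_grN fun i j q h => ?_
    rw [oN_eq_oN, ord_inj] at h
    rw [e.injective (Subtype.ext h)]
    exact ForcesEq.refl _ _
  · rw [hm, hh, oN_def' α]
    refine surj_grN fun h => ⟨e.symm h, fun q => ?_⟩
    rw [Equiv.apply_symm_apply]
    exact ForcesEq.refl _ _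

theorem fo_pr {G x y : Fin n} : Fo (fPr G x y) xs p ↔ ForcesMem (upN (xs x) (xs y)) (xs G) p := by
  unfold fPr
  rw [fo_bex]
  simp only [fo_upair, sn_up, sn_nw]
  constructor
  · intro h
    refine (ForcesMem.reg _ _).dense fun q hq => ?_
    obtain ⟨r, hr, w, h1, h2⟩ := h q hq
    exact ⟨r, hr, h1.congr_left h2⟩
  · intro h q hq
    exact ⟨q, le_rfl, _, h.mono hq, ForcesEq.refl _ _⟩

/-- The arrow relation `κ → (m, l)²` for `κ ≤ ν` remains true. -/
theorem fo_arrow {ν : Cardinal.{0}} (hω : ℵ₀ ≤ ν) (hd : Dist P ν) {k m l : Fin n}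
    {κ μ lam : Ordinal.{0}} (hk : xs k = oN P κ) (hm : xs m = oN P μ) (hl : xs l = oN P lam)
    (hκ : κ.card ≤ ν)
    (h : ∀ g : κ.ToType → κ.ToType → Prop, (∀ x y, g x y → g y x) →
      (∃ H : Set κ.ToType, Nonempty (μ.ToType ≃ H) ∧ ∀ x ∈ H, ∀ y ∈ H, x ≠ y → ¬ g x y) ∨
      (∃ H : Set κ.ToType, Nonempty (lam.ToType ≃ H) ∧ ∀ x ∈ H, ∀ y ∈ H, x ≠ y → g x y)) :
    Fo (fArrow k m l) xs p := by
  unfold fArrow
  rw [fo_all]
  intro G
  rw [fo_or]
  intro q hq
  -- decide all pairs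
  obtain ⟨r, hr, hdec⟩ := hd (I := κ.ToType × κ.ToType) (by
    rw [Cardinal.mk_prod]
    simp only [Cardinal.lift_id]
    rw [Cardinal.mk_toType]
    exact (mul_le_mul' hκ hκ).trans (Cardinal.mul_eq_self hω).le)
    (fun i r => ForcesMem (upN (oN P (ord i.1)) (oN P (ord i.2))) G r ∨
      ∀ s ≤ r, ¬ ForcesMem (upN (oN P (ord i.1)) (oN P (ord i.2))) G s)
    (fun i r s hs h => h.imp (ForcesMem.mono hs) (fun h t ht => h t (ht.trans hs)))
    (fun i r => by
      rcases (ForcesMem.reg (upN (oN P (ord i.1)) (oN P (ord i.2))) G).em r with h | ⟨s, hs, h⟩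
      · exact ⟨r, le_rfl, Or.inl h⟩
      · exact ⟨s, hs, Or.inr h⟩) q
  refine ⟨r, hr, ?_⟩
  rcases h (fun x y => ForcesMem (upN (oN P (ord x)) (oN P (ord y))) G r)
    (fun x y h => h.congr_left (upN_comm _ _ _)) with ⟨H, ⟨e⟩, hH⟩ | ⟨H, ⟨e⟩, hH⟩
  · left
    refine fo_ex_of (setN P H) ?_
    rw [fo_and, fo_and]
    refine ⟨?_, fo_equip_setN (by simp only [sn_up]; exact hm) (by rw [sn_nw]) e, ?_⟩
    · rw [fo_ball_ck (x := fun h : H => oN P (ord h.1)) (by rw [sn_nw]; rfl)]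
      intro i
      rw [fo_mem]
      simp only [sn_up, sn_nw]
      rw [hk]
      exact ord_mem _ _
    · rw [fo_ball_ck (x := fun h : H => oN P (ord h.1)) (by rw [sn_nw]; rfl)]
      intro i
      rw [fo_ball_ck (x := fun h : H => oN P (ord h.1)) (by rw [sn_up, sn_nw]; rfl)]
      intro j
      rw [fo_imp]
      intro s hs h1
      rw [fo_not] at h1
      simp only [fo_eq, sn_up, sn_nw] at h1
      have hne : i.1 ≠ j.1 := fun h => h1 s le_rfl (by rw [h]; exact ForcesEq.refl _ _)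
      rw [fo_not]
      intro t ht h2
      rw [fo_pr] at h2
      simp only [sn_up, sn_nw] at h2
      rcases hdec (i.1, j.1) with h3 | h3
      · exact hH i.1 i.2 j.1 j.2 hne h3
      · exact h3 t (ht.trans hs) h2
  · right
    refine fo_ex_of (setN P H) ?_
    rw [fo_and, fo_and]
    refine ⟨?_, fo_equip_setN (by simp only [sn_up]; exact hl) (by rw [sn_nw]) e, ?_⟩
    · rw [fo_ball_ck (x := fun h : H => oN P (ord h.1)) (by rw [sn_nw]; rfl)]
      intro i
      rw [fo_mem]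
      simp only [sn_up, sn_nw]
      rw [hk]
      exact ord_mem _ _
    · rw [fo_ball_ck (x := fun h : H => oN P (ord h.1)) (by rw [sn_nw]; rfl)]
      intro i
      rw [fo_ball_ck (x := fun h : H => oN P (ord h.1)) (by rw [sn_up, sn_nw]; rfl)]
      intro j
      rw [fo_imp]
      intro s hs h1
      rw [fo_not] at h1
      simp only [fo_eq, sn_up, sn_nw] at h1
      have hne : i.1 ≠ j.1 := fun h => h1 s le_rfl (by rw [h]; exact ForcesEq.refl _ _)
      rw [fo_pr]
      simp only [sn_up, sn_nw]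
      exact (hH i.1 i.2 j.1 j.2 hne).mono hs

end Pool.Agent.helper57.Fc
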